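import Pool.Agent.T9h36.WN2.Params

set_option autoImplicit false

/-!
# Large `k`: real exponents
-/

namespace Pool.Agent.T9h36.WN2

open Finset Pool.Agent.T9h34 Pool.Agent.T9h16 Pool.Agent.T9h35.Sharp Pool.Agent.T9h35.NearBF
open Pool.Agent.T9h36.WN
open scoped Classical

theorem pow_le_choose_mul (k : ℕ) : ∀ n, k ≤ n → n ^ k ≤ k ^ k * n.choose k := by
  induction k with
  | zero =>
    intro n _
    simp
  | succ k ih =>
    intro n hn
    obtain ⟨n', rfl⟩ : ∃ n', n = n' + 1 := ⟨n - 1, by omega⟩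
    have h1 := ih n' (by omega)
    have h2 : (k + 1) * (n' + 1).choose (k + 1) = (n' + 1) * n'.choose k := by
      have := Nat.add_one_mul_choose_eq n' k
      rw [mul_comm (k + 1)]
      exact this.symm
    have h3 : (n' + 1) ^ k ≤ (k + 1) ^ k * n'.choose k := by
      rcases Nat.eq_zero_or_pos k with h | h
      · subst h
        simp
      · have h4 : k ^ k * (n' + 1) ^ k ≤ k ^ k * ((k + 1) ^ k * n'.choose k) := by
          calc k ^ k * (n' + 1) ^ k = (k * (n' + 1)) ^ k := by rw [mul_pow]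
            _ ≤ ((k + 1) * n') ^ k := by
                apply Nat.pow_le_pow_left
                nlinarith
            _ = (k + 1) ^ k * n' ^ k := by rw [mul_pow]
            _ ≤ (k + 1) ^ k * (k ^ k * n'.choose k) := Nat.mul_le_mul_left _ h1
            _ = k ^ k * ((k + 1) ^ k * n'.choose k) := by ring
        exact Nat.le_of_mul_le_mul_left h4 (Nat.pow_pos h)
    calc (n' + 1) ^ (k + 1) = (n' + 1) ^ k * (n' + 1) := pow_succ _ _
      _ ≤ (k + 1) ^ k * n'.choose k * (n' + 1) := Nat.mul_le_mul_right _ h3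
      _ = (k + 1) ^ k * ((n' + 1) * n'.choose k) := by ring
      _ = (k + 1) ^ k * ((k + 1) * (n' + 1).choose (k + 1)) := by rw [h2]
      _ = (k + 1) ^ (k + 1) * (n' + 1).choose (k + 1) := by rw [pow_succ]; ring

/-- A lower bound for the binomial coefficient. -/
theorem choose_rpow {n k : ℕ} {ε : ℝ} (hε : 0 < ε) (hk : 1 ≤ k) (hkn : k ≤ n)
    (hkε : (k : ℝ) ≤ (n : ℝ) ^ (1 - ε)) :
    (n : ℝ) ^ (ε * ε * k) ≤ (n.choose k : ℝ) ^ ε := by
  have hk0 : (0 : ℝ) < k := by exact_mod_cast hk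
  have hn0 : (0 : ℝ) < n := by
    have : 0 < n := by omega
    exact_mod_cast this
  have h1 : ((n : ℝ) / k) ^ k ≤ (n.choose k : ℝ) := by
    rw [div_pow, div_le_iff₀ (pow_pos hk0 k), mul_comm]
    exact_mod_cast pow_le_choose_mul k n hkn
  have h2 : (n : ℝ) ^ ε ≤ (n : ℝ) / k := by
    rw [le_div_iff₀ hk0]
    calc (n : ℝ) ^ ε * k ≤ (n : ℝ) ^ ε * (n : ℝ) ^ (1 - ε) :=
          mul_le_mul_of_nonneg_left hkε (by positivity)
      _ = n := by
          rw [← Real.rpow_add hn0]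
          have : ε + (1 - ε) = 1 := by ring
          rw [this, Real.rpow_one]
  calc (n : ℝ) ^ (ε * ε * k) = (((n : ℝ) ^ ε) ^ k) ^ ε := by
        rw [← Real.rpow_natCast, ← Real.rpow_mul hn0.le, ← Real.rpow_mul hn0.le]
        congr 1
        ring
    _ ≤ (((n : ℝ) / k) ^ k) ^ ε := by
        apply Real.rpow_le_rpow (by positivity) _ hε.le
        exact pow_le_pow_left₀ (by positivity) h2 k
    _ ≤ (n.choose k : ℝ) ^ ε := Real.rpow_le_rpow (by positivity) h1 hε.le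

/-- From the natural numbers to real exponents. -/
theorem real_bound {n k s a R F : ℕ} {ε : ℝ} (hε : 0 < ε) (hs : 1 ≤ s) (hse : 8 ≤ ε * ε * s)
    (hk : 1 ≤ k) (hkn : k ≤ n) (hkε : (k : ℝ) ≤ (n : ℝ) ^ (1 - ε)) (hR : 1 ≤ R)
    (ha : a ^ s ^ 2 ≤ n ^ 2) (h : (F * k ^ k) ^ 2 ≤ (a ^ (8 * s) * max (k ^ 2) R) ^ k) :
    (F : ℝ) ≤ (max 1 ((R : ℝ) / (k : ℝ) ^ 2)) ^ ((k : ℝ) / 2) * (n.choose k : ℝ) ^ ε := by
  have hk0 : (0 : ℝ) < k := by exact_mod_cast hk
  have hn1 : (1 : ℝ) ≤ n := by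
    have : 1 ≤ n := by omega
    exact_mod_cast this
  have hn0 : (0 : ℝ) < n := by linarith
  obtain ⟨X, hX⟩ : ∃ X, X = max 1 ((R : ℝ) / (k : ℝ) ^ 2) := ⟨_, rfl⟩
  have hX1 : 1 ≤ X := hX ▸ le_max_left _ _
  have hX0 : 0 < X := by linarith
  rw [← hX]
  have h1 : ((max (k ^ 2) R : ℕ) : ℝ) = (k : ℝ) ^ 2 * X := by
    rw [hX, Nat.cast_max, mul_max_of_nonneg _ _ (by positivity)]
    push_cast
    congr 1
    · ring
    · field_simp
  have h2 : (F : ℝ) ^ 2 ≤ ((a : ℝ) ^ (8 * s) * X) ^ k := by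
    have h3 : ((F : ℝ) * k ^ k) ^ 2 ≤ ((a : ℝ) ^ (8 * s) * ((k : ℝ) ^ 2 * X)) ^ k := by
      rw [← h1]
      exact_mod_cast h
    have h4 : (F : ℝ) ^ 2 * ((k : ℝ) ^ k) ^ 2 ≤ ((a : ℝ) ^ (8 * s) * X) ^ k * ((k : ℝ) ^ k) ^ 2 := by
      calc (F : ℝ) ^ 2 * ((k : ℝ) ^ k) ^ 2 = ((F : ℝ) * k ^ k) ^ 2 := by ring
        _ ≤ ((a : ℝ) ^ (8 * s) * ((k : ℝ) ^ 2 * X)) ^ k := h3
        _ = ((a : ℝ) ^ (8 * s) * X) ^ k * ((k : ℝ) ^ k) ^ 2 := by
            have h5 : ((k : ℝ) ^ k) ^ 2 = ((k : ℝ) ^ 2) ^ k := by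
              rw [← pow_mul, ← pow_mul, mul_comm]
            rw [h5, ← mul_pow]
            congr 1
            ring
    exact le_of_mul_le_mul_right h4 (by positivity)
  have h5 : (a : ℝ) ^ (4 * s * k) ≤ (n.choose k : ℝ) ^ ε := by
    have h6 : ((a : ℝ) ^ (4 * s * k)) ^ s ≤ ((n.choose k : ℝ) ^ ε) ^ s := by
      calc ((a : ℝ) ^ (4 * s * k)) ^ s = ((a : ℝ) ^ s ^ 2) ^ (4 * k) := by
            rw [← pow_mul, ← pow_mul]
            congr 1
            ring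
        _ ≤ ((n : ℝ) ^ 2) ^ (4 * k) := by
            apply pow_le_pow_left₀ (by positivity)
            exact_mod_cast ha
        _ = (n : ℝ) ^ ((8 * k : ℕ) : ℝ) := by
            rw [Real.rpow_natCast, ← pow_mul]
            congr 1
            ring
        _ ≤ (n : ℝ) ^ (ε * ε * k * s) := by
            apply Real.rpow_le_rpow_of_exponent_le hn1
            push_cast
            nlinarith
        _ = ((n : ℝ) ^ (ε * ε * k)) ^ s := by
            rw [Real.rpow_mul hn0.le, Real.rpow_natCast]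
        _ ≤ ((n.choose k : ℝ) ^ ε) ^ s :=
            pow_le_pow_left₀ (by positivity) (choose_rpow hε hk hkn hkε) s
    exact le_of_pow_le_pow_left₀ (by omega) (by positivity) h6
  have h7 : (F : ℝ) ≤ X ^ ((k : ℝ) / 2) * (a : ℝ) ^ (4 * s * k) := by
    apply le_of_pow_le_pow_left₀ (show 2 ≠ 0 by norm_num) (by positivity)
    refine h2.trans (le_of_eq ?_)
    rw [mul_pow, mul_pow, ← pow_mul, ← pow_mul]
    have h8 : (X ^ ((k : ℝ) / 2)) ^ 2 = X ^ k := by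
      rw [← Real.rpow_natCast, ← Real.rpow_mul hX0.le]
      have : (k : ℝ) / 2 * ((2 : ℕ) : ℝ) = ((k : ℕ) : ℝ) := by
        push_cast
        ring
      rw [this, Real.rpow_natCast]
    rw [h8, mul_comm]
    congr 2
    ring
  exact h7.trans (mul_le_mul_of_nonneg_left h5 (by positivity))

/-- Large `k`, one circuit. -/
theorem large_circuit (δ ε : ℝ) (hδ : 0 < δ) (hε : 0 < ε) : ∃ K : ℕ, 0 < K ∧
    ∀ (n k R : ℕ) (C : Circuit (Pair n)), 1 ≤ k → (n : ℝ) ^ δ ≤ k → (k : ℝ) ≤ (n : ℝ) ^ (1 - ε) →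
    (K * (Nat.log 2 (C.size + C.numReads) + 1)) ^ K ≤ n →
    (∀ G : SimpleGraph (Fin n), C.eval (edgeValues G) = true → HasClique k G) →
    1 ≤ R → ¬ HasChain C k R →
    ((univ.filter fun S : Finset (Fin n) => S.card = k ∧ Finds C S).card : ℝ) ≤
      (max 1 ((R : ℝ) / (k : ℝ) ^ 2)) ^ ((k : ℝ) / 2) * (n.choose k : ℝ) ^ ε := by
  -- the parameter `s`
  obtain ⟨s, hs2, hse, hsδ⟩ : ∃ s : ℕ, 2 ≤ s ∧ 8 ≤ ε * ε * s ∧ 1 ≤ δ * (s : ℝ) ^ 2 := by
    obtain ⟨s1, h1⟩ := exists_nat_gt (8 / (ε * ε))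
    obtain ⟨s2, h2⟩ := exists_nat_gt (1 / δ)
    refine ⟨s1 + s2 + 2, by omega, ?_, ?_⟩
    · rw [div_lt_iff₀ (by positivity)] at h1
      push_cast
      have : 0 ≤ ε * ε * (s2 + 2) := by positivity
      nlinarith
    · rw [div_lt_iff₀ hδ] at h2
      push_cast
      have h3 : (s2 : ℝ) ≤ ((s1 : ℝ) + s2 + 2) ^ 2 := by
        have h4 : (0 : ℝ) ≤ s1 := Nat.cast_nonneg _
        have h5 : (0 : ℝ) ≤ s2 := Nat.cast_nonneg _
        nlinarith
      have h4 : δ * s2 ≤ δ * ((s1 : ℝ) + s2 + 2) ^ 2 := mul_le_mul_of_nonneg_left h3 hδ.le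
      linarith
  obtain ⟨T, hT⟩ : ∃ T, T = s ^ 2 := ⟨_, rfl⟩
  have hT1 : 4 ≤ T := by
    rw [hT]
    nlinarith
  obtain ⟨E, hE⟩ : ∃ E, E = T * (T + 13) := ⟨_, rfl⟩
  obtain ⟨c, hc⟩ : ∃ c, c = 2 ^ 19 * 2 ^ (T + 3) + 32 * (T + 2) + 256 := ⟨_, rfl⟩
  obtain ⟨K1, hK1⟩ := exists_large_c 2 (2 * E)
  refine ⟨2 * T + 2 * E + c + K1 + 4, by omega, ?_⟩
  intro n k R C hk1 hkδ hkε hKn hs hR hno
  obtain ⟨K, hK⟩ : ∃ K, K = 2 * T + 2 * E + c + K1 + 4 := ⟨_, rfl⟩
  rw [← hK] at hKn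
  obtain ⟨L, hL⟩ : ∃ L, L = Nat.log 2 (C.size + C.numReads) + 1 := ⟨_, rfl⟩
  rw [← hL] at hKn
  have hL1 : 1 ≤ L := by omega
  have hKL : K ≤ K * L := Nat.le_mul_of_pos_right _ hL1
  have hn2K : 2 ^ K ≤ n := by
    refine le_trans ?_ hKn
    exact Nat.pow_le_pow_left (by omega) _
  have hn1 : 1 ≤ n := le_trans Nat.one_le_two_pow hn2K
  have hkn : k ≤ n := by
    have h1 : (k : ℝ) ≤ n := by
      refine hkε.trans ?_
      calc (n : ℝ) ^ (1 - ε) ≤ (n : ℝ) ^ (1 : ℝ) :=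
            Real.rpow_le_rpow_of_exponent_le (by exact_mod_cast hn1) (by linarith)
        _ = n := Real.rpow_one _
    exact_mod_cast h1
  -- the number of classes
  obtain ⟨l, hl⟩ : ∃ l, l = Nat.log 2 n := ⟨_, rfl⟩
  have hlK : K1 ≤ l := by
    have h1 : K ≤ Nat.log 2 n := (Nat.le_log_iff_pow_le (by norm_num) (by omega)).2 hn2K
    omega
  have hl1 : 1 ≤ l := by
    have h1 : K ≤ Nat.log 2 n := (Nat.le_log_iff_pow_le (by norm_num) (by omega)).2 hn2K
    omega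
  have h2l : 2 ^ l ≤ n := by
    rw [hl]
    exact Nat.pow_log_le_self 2 (by omega)
  have hn2 : n < 2 ^ (l + 1) := by
    rw [hl]
    exact Nat.lt_pow_succ_log_self (by norm_num) n
  obtain ⟨N, hN⟩ : ∃ N, N = C.size + C.numReads + 1 := ⟨_, rfl⟩
  have hN2 : N ≤ 2 ^ L := by
    rw [hN, hL]
    exact Nat.lt_pow_succ_log_self (by norm_num) _
  obtain ⟨m, hm⟩ : ∃ m, m = L + 2 * l + 2 := ⟨_, rfl⟩
  have h2N : 2 * N * n ^ 2 ≤ 2 ^ (m + 1) := by
    calc 2 * N * n ^ 2 ≤ 2 * 2 ^ L * (2 ^ (l + 1)) ^ 2 := by gcongr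
      _ = 2 ^ (1 + L + (l + 1) * 2) := by
          rw [← pow_mul, pow_add, pow_add, pow_one]
      _ ≤ 2 ^ (m + 1) := Nat.pow_le_pow_right (by norm_num) (by omega)
  have hκ : m + 1 ≤ 2 * (2 * L) * (2 * l ^ 4) := by
    have h1 : l ≤ l ^ 4 := Nat.le_self_pow (by norm_num) l
    have h2 : 2 * (2 * L) * (2 * l) ≤ 2 * (2 * L) * (2 * l ^ 4) :=
      Nat.mul_le_mul_left _ (Nat.mul_le_mul_left _ h1)
    have h3 : m + 1 ≤ 2 * (2 * L) * (2 * l) := by
      have h4 : L ≤ L * l := Nat.le_mul_of_pos_right _ hl1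
      have h5 : l ≤ L * l := Nat.le_mul_of_pos_left _ hL1
      have h6 : 2 * (2 * L) * (2 * l) = 8 * (L * l) := by ring
      omega
    omega
  obtain ⟨X, hX⟩ : ∃ X, X = 2 ^ 19 * (m + 1) ^ 10 * (2 * (m + 1)) ^ (T + 3) + 32 * (T + 2) + 256 :=
    ⟨_, rfl⟩
  have hXc : X ≤ c * (m + 1) ^ (T + 13) := by
    have h1 : 1 ≤ (m + 1) ^ (T + 13) := Nat.one_le_pow _ _ (Nat.succ_pos m)
    have h2 : 2 ^ 19 * (m + 1) ^ 10 * (2 * (m + 1)) ^ (T + 3) =
        2 ^ 19 * 2 ^ (T + 3) * (m + 1) ^ (T + 13) := by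
      rw [mul_pow, show T + 13 = 10 + (T + 3) by ring, pow_add (m + 1) 10 (T + 3)]
      ring
    rw [hX, h2, hc, add_mul, add_mul]
    have h3 : 32 * (T + 2) ≤ 32 * (T + 2) * (m + 1) ^ (T + 13) :=
      Nat.le_mul_of_pos_right _ h1
    have h4 : 256 ≤ 256 * (m + 1) ^ (T + 13) := Nat.le_mul_of_pos_right _ h1
    omega
  have hXn : X ^ T ≤ n := by
    have hsq : (X ^ T) ^ 2 ≤ n ^ 2 := by
      calc (X ^ T) ^ 2 ≤ ((c * (m + 1) ^ (T + 13)) ^ T) ^ 2 := by gcongr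
        _ = c ^ (2 * T) * (m + 1) ^ (2 * E) := by
            rw [hE, mul_pow, mul_pow, ← pow_mul, ← pow_mul, ← pow_mul, mul_comm T 2]
            congr 2
            ring
        _ ≤ c ^ (2 * T) * (2 * (2 * L) * (2 * l ^ 4)) ^ (2 * E) := by gcongr
        _ = c ^ (2 * T) * (4 * L) ^ (2 * E) * (2 * l ^ 4) ^ (2 * E) := by
            rw [mul_pow, mul_assoc]
            congr 3
            ring
        _ ≤ n * n := by
            apply Nat.mul_le_mul
            · refine le_trans ?_ hKn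
              calc c ^ (2 * T) * (4 * L) ^ (2 * E) ≤ (K * L) ^ (2 * T) * (K * L) ^ (2 * E) := by
                    gcongr
                    · omega
                    · omega
                _ = (K * L) ^ (2 * T + 2 * E) := by rw [← pow_add]
                _ ≤ (K * L) ^ K := Nat.pow_le_pow_right (by omega) (by omega)
            · exact (hK1 l hlK).trans h2l
        _ = n ^ 2 := by ring
    exact (Nat.pow_le_pow_iff_left (by norm_num)).1 hsq
  -- the unit `a`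
  have hexa : ∃ a, n ≤ a ^ T := ⟨n, Nat.le_self_pow (by omega) n⟩
  obtain ⟨a, ha1, ha2⟩ : ∃ a, n ≤ a ^ T ∧ ∀ b < a, b ^ T < n :=
    ⟨Nat.find hexa, Nat.find_spec hexa, fun b hb => not_le.1 (Nat.find_min hexa hb)⟩
  have hXa : X ≤ a := by
    have h1 : X ^ T ≤ a ^ T := hXn.trans ha1
    exact (Nat.pow_le_pow_iff_left (by omega)).1 h1
  have ha3 : a ^ T ≤ n ^ 2 := by
    have h1 := ha2 (a - 1) (by omega)
    have h2 : a ≤ 2 * (a - 1) := by omega
    have h3 : 2 ^ T ≤ n := le_trans (Nat.pow_le_pow_right (by norm_num) (by omega)) hn2K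
    calc a ^ T ≤ (2 * (a - 1)) ^ T := Nat.pow_le_pow_left h2 _
      _ = 2 ^ T * (a - 1) ^ T := by rw [mul_pow]
      _ ≤ n * n := Nat.mul_le_mul h3 h1.le
      _ = n ^ 2 := by ring
  have hTk : (m + 1) * s ^ 2 ≤ k := by
    rw [← hT]
    have h1 : (m + 1) * T ≤ X := by
      have h2 : 1 ≤ (m + 1) ^ 10 := Nat.one_le_pow _ _ (Nat.succ_pos m)
      have h3 : m + 1 ≤ (2 * (m + 1)) ^ 1 := by
        rw [pow_one]
        omega
      have h4 : (m + 1) * T ≤ 2 ^ 19 * (m + 1) ^ 10 * (2 * (m + 1)) ^ (T + 3) := by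
        calc (m + 1) * T ≤ (2 * (m + 1)) ^ 1 * 2 ^ (T + 2) := by
              apply Nat.mul_le_mul h3
              have : T < 2 ^ T := Nat.lt_two_pow_self
              have h5 : 2 ^ T ≤ 2 ^ (T + 2) := Nat.pow_le_pow_right (by norm_num) (by omega)
              omega
          _ ≤ (2 * (m + 1)) ^ 1 * (2 * (m + 1)) ^ (T + 2) := by
              apply Nat.mul_le_mul_left
              apply Nat.pow_le_pow_left
              omega
          _ = 1 * 1 * (2 * (m + 1)) ^ (T + 3) := by ring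
          _ ≤ 2 ^ 19 * (m + 1) ^ 10 * (2 * (m + 1)) ^ (T + 3) := by
              apply Nat.mul_le_mul_right
              apply Nat.mul_le_mul _ h2
              norm_num
      omega
    have h2 : ((m + 1) * T) ^ T ≤ n := (Nat.pow_le_pow_left h1 T).trans hXn
    have h3 : (((m + 1) * T : ℕ) : ℝ) ≤ (n : ℝ) ^ δ := by
      have hn1' : (1 : ℝ) ≤ n := by exact_mod_cast hn1
      have h4 : (((m + 1) * T : ℕ) : ℝ) ^ T ≤ ((n : ℝ) ^ δ) ^ T := by
        calc (((m + 1) * T : ℕ) : ℝ) ^ T ≤ (n : ℝ) := by exact_mod_cast h2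
          _ = (n : ℝ) ^ (1 : ℝ) := (Real.rpow_one _).symm
          _ ≤ (n : ℝ) ^ (δ * T) := by
              apply Real.rpow_le_rpow_of_exponent_le hn1'
              rw [hT]
              push_cast
              exact hsδ
          _ = ((n : ℝ) ^ δ) ^ T := by
              rw [Real.rpow_mul (by linarith), Real.rpow_natCast]
      exact le_of_pow_le_pow_left₀ (by omega) (by positivity) h4
    exact_mod_cast h3.trans hkδ
  have hmain := one_circuit C hs (N := N) (a := a) (by omega) hR hno (by omega) hn1 hs2 h2N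
    (by
      rw [← hT]
      exact le_trans (by rw [hX]; omega) hXa) (by
      rw [← hT]
      exact le_trans (by rw [hX]; omega) hXa)
    (le_trans (by rw [hX]; omega) hXa) (by rw [← hT]; exact ha1) hTk hkn
  exact real_bound hε (by omega) hse hk1 hkn hkε hR (by rw [← hT]; exact ha3) hmain

end Pool.Agent.T9h36.WN2
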