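import Pool.Agent.T9h36.WN.Embed

set_option autoImplicit false

/-!
# Labelled vertices: complete multipartite graphs outside of the active vertices
-/

namespace Pool.Agent.T9h36.WN2

open Finset Pool.Agent.T9h34 Pool.Agent.T9h16 Pool.Agent.T9h35.Sharp Pool.Agent.T9h35.NearBF
open Pool.Agent.T9h36.WN
open scoped Classical

variable {n : ℕ} {Λ Λ' : Type}

/-- Vertices with different labels are joined, unlabelled vertices are joined as in `H`. -/
def LG (lab : Fin n → Option Λ) (H : SimpleGraph (Fin n)) : SimpleGraph (Fin n) where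
  Adj x y := lab x ≠ lab y ∨ (lab x = none ∧ lab y = none ∧ H.Adj x y)
  symm := ⟨by
    rintro x y (h | ⟨h1, h2, h3⟩)
    · exact Or.inl h.symm
    · exact Or.inr ⟨h2, h1, h3.symm⟩⟩
  loopless := ⟨by
    rintro x (h | ⟨_, _, h⟩)
    · exact h rfl
    · exact H.irrefl h⟩

theorem LG_adj (lab : Fin n → Option Λ) (H : SimpleGraph (Fin n)) (x y : Fin n) :
    (LG lab H).Adj x y ↔ lab x ≠ lab y ∨ (lab x = none ∧ lab y = none ∧ H.Adj x y) := Iff.rfl

theorem LG_mono (lab : Fin n → Option Λ) {H H' : SimpleGraph (Fin n)} (h : H ≤ H') :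
    LG lab H ≤ LG lab H' := by
  intro x y hxy
  rcases hxy with h1 | ⟨h1, h2, h3⟩
  · exact Or.inl h1
  · exact Or.inr ⟨h1, h2, h h3⟩

/-- The circuit accepts all graphs with complete multipartite labelled part in which `f` is a
clique. -/
def FoundIn (C : Circuit (Pair n)) (lab : Fin n → Option Λ) {j : ℕ} (f : Fin j → Fin n) : Prop :=
  ∀ H : SimpleGraph (Fin n), (∀ a b, a ≠ b → H.Adj (f a) (f b)) →
    C.eval (edgeValues (LG lab H)) = true

/-- The labelling `lab'` refines `lab`: only unlabelled vertices get new labels. -/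
def Refines (lab : Fin n → Option Λ) (lab' : Fin n → Option Λ') : Prop :=
  (∀ x y, lab x ≠ lab y → lab' x ≠ lab' y) ∧
    ∀ x y, lab x = lab y → lab x ≠ none → lab' x = lab' y ∧ lab' x ≠ none

theorem LG_LG {lab : Fin n → Option Λ} {lab' : Fin n → Option Λ'} (h : Refines lab lab')
    (H : SimpleGraph (Fin n)) : LG lab (LG lab' H) = LG lab' H := by
  ext x y
  rw [LG_adj, LG_adj]
  constructor
  · rintro (h1 | ⟨_, _, h1⟩)
    · exact Or.inl (h.1 x y h1)
    · exact h1
  · intro h1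
    by_cases hxy : lab x = lab y
    · by_cases hn : lab x = none
      · exact Or.inr ⟨hn, hxy ▸ hn, h1⟩
      · obtain ⟨h2, h3⟩ := h.2 x y hxy hn
        rcases h1 with h4 | ⟨h4, _, _⟩
        · exact absurd h2 h4
        · exact absurd h4 h3
    · exact Or.inl hxy

theorem found_step (C : Circuit (Pair n)) {lab : Fin n → Option Λ} {lab' : Fin n → Option Λ'}
    (h : Refines lab lab') {k j : ℕ} (f : Fin k → Fin n) (hf : FoundIn C lab f)
    (e : Fin j → Fin k) (hnone : ∀ i, lab' (f (e i)) = none)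
    (hlab : ∀ l l', l ≠ l' → (¬ ∃ i, e i = l) → lab' (f l) ≠ lab' (f l')) :
    FoundIn C lab' (fun i => f (e i)) := by
  intro H hH
  have h1 : ∀ a b, a ≠ b → (LG lab' H).Adj (f a) (f b) := by
    intro a b hab
    by_cases ha : ∃ i, e i = a
    · by_cases hb : ∃ i, e i = b
      · obtain ⟨i, rfl⟩ := ha
        obtain ⟨i', rfl⟩ := hb
        exact Or.inr ⟨hnone i, hnone i', hH i i' fun h2 => hab (by rw [h2])⟩
      · exact Or.inl (hlab b a hab.symm hb).symm
    · exact Or.inl (hlab a b hab ha)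
  have h2 := hf _ h1
  rwa [LG_LG h] at h2

/-- Large cliques meet the unlabelled vertices. -/
theorem clique_unlabelled [Fintype Λ] {lab : Fin n → Option Λ} {H : SimpleGraph (Fin n)} {k j : ℕ}
    (hc : Fintype.card Λ + j ≤ k) (h : HasClique k (LG lab H)) :
    ∃ c : Finset (Fin n), H.IsClique (c : Set (Fin n)) ∧ j ≤ c.card ∧ ∀ x ∈ c, lab x = none := by
  obtain ⟨c, hc1, hc2⟩ := h
  refine ⟨c.filter fun x => lab x = none, ?_, ?_, fun x hx => (mem_filter.1 hx).2⟩
  · intro x hx y hy hxy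
    rw [mem_coe, mem_filter] at hx hy
    rcases hc1 (mem_coe.2 hx.1) (mem_coe.2 hy.1) hxy with h1 | ⟨_, _, h1⟩
    · exact absurd (hx.2.trans hy.2.symm) h1
    · exact h1
  · have h1 : (c.filter fun x => ¬ lab x = none).card ≤ Fintype.card Λ := by
      have h2 : ((c.filter fun x => ¬ lab x = none).image lab).card =
          (c.filter fun x => ¬ lab x = none).card := by
        apply card_image_of_injOn
        intro x hx y hy hxy
        rw [mem_coe, mem_filter] at hx hy
        by_contra hne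
        rcases hc1 (mem_coe.2 hx.1) (mem_coe.2 hy.1) hne with h1 | ⟨h1, _, _⟩
        · exact h1 hxy
        · exact hx.2 h1
      rw [← h2]
      have h3 : ((c.filter fun x => ¬ lab x = none).image lab) ⊆
          (univ : Finset Λ).image some := by
        intro a ha
        rw [mem_image] at ha
        obtain ⟨x, hx, rfl⟩ := ha
        rw [mem_filter] at hx
        rw [mem_image]
        obtain ⟨b, hb⟩ := Option.ne_none_iff_exists'.1 hx.2
        exact ⟨b, mem_univ _, hb.symm⟩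
      refine (card_le_card h3).trans (card_image_le.trans ?_)
      rw [card_univ]
    have h2 := card_filter_add_card_filter_not (s := c) (fun x => lab x = none)
    omega

/-- The graph on classes described by `z`. -/
def HZ {κ : ℕ} (cc : Fin n → Fin κ) (z : Set (EE κ n)) : SimpleGraph (Fin n) where
  Adj x y := (∃ h : cc x < cc y, (⟨((cc x, x), (cc y, y)), h⟩ : EE κ n) ∈ z) ∨
    (∃ h : cc y < cc x, (⟨((cc y, y), (cc x, x)), h⟩ : EE κ n) ∈ z)
  symm := ⟨by
    rintro x y (h | h)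
    · exact Or.inr h
    · exact Or.inl h⟩
  loopless := ⟨by
    rintro x (⟨h, _⟩ | ⟨h, _⟩) <;> exact lt_irrefl _ h⟩

theorem HZ_mono {κ : ℕ} (cc : Fin n → Fin κ) {z z' : Set (EE κ n)} (h : z ⊆ z') :
    HZ cc z ≤ HZ cc z' := by
  intro x y hxy
  rcases hxy with ⟨h1, h2⟩ | ⟨h1, h2⟩
  · exact Or.inl ⟨h1, h h2⟩
  · exact Or.inr ⟨h1, h h2⟩

theorem HZ_leaf {κ : ℕ} (cc : Fin n → Fin κ) (x y : Fin n) :
    Leaf fun z : Set (EE κ n) => (HZ cc z).Adj x y := by
  rcases lt_trichotomy (cc x) (cc y) with h | h | h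
  · refine Or.inl ⟨⟨((cc x, x), (cc y, y)), h⟩, fun z => ⟨?_, fun h1 => Or.inl ⟨h, h1⟩⟩⟩
    rintro (⟨_, h1⟩ | ⟨h1, _⟩)
    · exact h1
    · exact absurd h1 (not_lt_of_gt h)
  · refine Or.inr ⟨False, fun z => ⟨?_, fun h1 => h1.elim⟩⟩
    rintro (⟨h1, _⟩ | ⟨h1, _⟩)
    · exact absurd h1 (by rw [h]; exact lt_irrefl _)
    · exact absurd h1 (by rw [h]; exact lt_irrefl _)
  · refine Or.inl ⟨⟨((cc y, y), (cc x, x)), h⟩, fun z => ⟨?_, fun h1 => Or.inr ⟨h, h1⟩⟩⟩
    rintro (⟨h1, _⟩ | ⟨_, h1⟩)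
    · exact absurd h1 (not_lt_of_gt h)
    · exact h1

theorem HZ_clique {κ : ℕ} (cc : Fin n → Fin κ) (z : Set (EE κ n)) (c : Finset (Fin n))
    (hc : (HZ cc z).IsClique (c : Set (Fin n))) (hk : κ ≤ c.card) : TK z := by
  have hinj : Set.InjOn cc c := by
    intro x hx y hy hxy
    by_contra hne
    rcases hc hx hy hne with ⟨h, _⟩ | ⟨h, _⟩
    · rw [hxy] at h
      exact lt_irrefl _ h
    · rw [hxy] at h
      exact lt_irrefl _ h
  have hsurj : ∀ i : Fin κ, ∃ x ∈ c, cc x = i := by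
    have h1 : (c.image cc) = univ := by
      apply eq_univ_of_card
      rw [card_image_of_injOn hinj, Fintype.card_fin]
      refine le_antisymm ?_ hk
      rw [← card_image_of_injOn hinj]
      exact (card_le_univ _).trans (by rw [Fintype.card_fin])
    intro i
    have h2 : i ∈ c.image cc := by
      rw [h1]
      exact mem_univ _
    rw [mem_image] at h2
    exact h2
  choose φ hφ1 hφ2 using hsurj
  refine ⟨φ, ?_⟩
  rintro ⟨⟨⟨a, x⟩, ⟨b, y⟩⟩, hab⟩ ⟨h1, h2⟩
  simp only at h1 h2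
  subst h1
  subst h2
  have hab' : a < b := hab
  have hne : φ a ≠ φ b := by
    intro h
    have h1 := hφ2 a
    rw [h, hφ2 b] at h1
    exact absurd h1.symm (ne_of_lt hab')
  have key : ∀ (p q : Fin κ) (hpq : p < q), p = a → q = b →
      (⟨((p, φ a), (q, φ b)), hpq⟩ : EE κ n) ∈ z →
      (⟨((a, φ a), (b, φ b)), hab⟩ : EE κ n) ∈ z := by
    rintro p q hpq rfl rfl h
    exact h
  rcases hc (mem_coe.2 (hφ1 a)) (mem_coe.2 (hφ1 b)) hne with ⟨h, h1⟩ | ⟨h, h1⟩
  · exact key _ _ h (hφ2 a) (hφ2 b) h1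
  · rw [hφ2, hφ2] at h
    exact absurd h (not_lt_of_gt hab')

theorem HZ_found {κ : ℕ} (cc : Fin n → Fin κ) (z : Set (EE κ n)) (φ : Fin κ → Fin n)
    (hφ : ∀ i, cc (φ i) = i) (hz : posG φ ⊆ z) (a b : Fin κ) (hab : a ≠ b) :
    (HZ cc z).Adj (φ a) (φ b) := by
  have key : ∀ a b : Fin κ, ∀ h : a < b,
      ∃ h : cc (φ a) < cc (φ b), (⟨((cc (φ a), φ a), (cc (φ b), φ b)), h⟩ : EE κ n) ∈ z := by
    intro a b h
    refine ⟨by rw [hφ, hφ]; exact h, hz ⟨?_, ?_⟩⟩
    · show φ (cc (φ a)) = φ a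
      rw [hφ]
    · show φ (cc (φ b)) = φ b
      rw [hφ]
  rcases lt_or_gt_of_ne hab with h | h
  · exact Or.inl (key a b h)
  · exact Or.inr (key b a h)

/-- The last step: few transversals are found in the classes, unless the values read change often
along a chain. -/
theorem few_last [Fintype Λ] (C : Circuit (Pair n)) {k m R Q : ℕ}
    (hs : ∀ G : SimpleGraph (Fin n), C.eval (edgeValues G) = true → HasClique k G)
    (lab : Fin n → Option Λ) (hc : Fintype.card Λ + (m + 1) ≤ k) (cc : Fin n → Fin (m + 1))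
    (P : Finset (Fin (m + 1) → Fin n)) (hP : ∀ φ ∈ P, FoundIn C lab φ ∧ ∀ i, cc (φ i) = i)
    (hS : Single C m n R Q) (hno : ¬ HasChain C k R) : P.card ≤ Q := by
  by_contra hcon
  rw [not_le] at hcon
  have hTK : ∀ z, HasClique k (LG lab (HZ cc z)) → TK z := by
    intro z hz
    obtain ⟨c, h1, h2, -⟩ := clique_unlabelled hc hz
    exact HZ_clique cc z c h1 h2
  obtain ⟨Y, hY1, hY2, hY3⟩ := hS (fun z => edgeValues (LG lab (HZ cc z))) (by
      intro e
      simp only [edgeValues, decide_eq_true_eq]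
      by_cases h1 : lab e.1.1 = lab e.1.2
      · by_cases h2 : lab e.1.1 = none
        · rcases HZ_leaf cc e.1.1 e.1.2 with ⟨e', he⟩ | ⟨b, hb⟩
          · refine Or.inl ⟨e', fun z => ?_⟩
            show (LG lab (HZ cc z)).Adj e.1.1 e.1.2 ↔ _
            rw [LG_adj, ← he z]
            exact ⟨fun h3 => h3.elim (fun h4 => absurd h1 h4) fun h4 => h4.2.2,
              fun h3 => Or.inr ⟨h2, h1 ▸ h2, h3⟩⟩
          · refine Or.inr ⟨b, fun z => ?_⟩
            show (LG lab (HZ cc z)).Adj e.1.1 e.1.2 ↔ _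
            rw [LG_adj, ← hb z]
            exact ⟨fun h3 => h3.elim (fun h4 => absurd h1 h4) fun h4 => h4.2.2,
              fun h3 => Or.inr ⟨h2, h1 ▸ h2, h3⟩⟩
        · refine Or.inr ⟨False, fun z => ?_⟩
          show (LG lab (HZ cc z)).Adj e.1.1 e.1.2 ↔ _
          rw [LG_adj]
          exact ⟨fun h3 => h3.elim (fun h4 => absurd h1 h4) fun h4 => absurd h4.1 h2,
            fun h3 => h3.elim⟩
      · refine Or.inr ⟨True, fun z => ?_⟩
        show (LG lab (HZ cc z)).Adj e.1.1 e.1.2 ↔ _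
        rw [LG_adj]
        exact iff_of_true (Or.inl h1) trivial)
    (fun z hz => hTK z (hs _ hz)) P (by
      intro φ hφ z hz
      obtain ⟨h1, h2⟩ := hP φ hφ
      exact h1 _ (HZ_found cc z φ h2 hz)) hcon
  exact hno ⟨fun i => LG lab (HZ cc (Y i)), fun i => LG_mono lab (HZ_mono cc (hY1 i)),
    fun i h => hY2 i (hTK _ h), hY3⟩

end Pool.Agent.T9h36.WN2
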