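import Pool.Agent.T9h36.WN2.Real
import Pool.Agent.T9h35.WS.Product

set_option autoImplicit false

/-!
# The sharp tradeoff: all `j`
-/

namespace Pool.Agent.T9h36.WN2

open Finset Pool.Agent.T9h34 Pool.Agent.T9h16 Pool.Agent.T9h35.Sharp Pool.Agent.T9h35.NearBF
open Pool.Agent.T9h36.WN Pool.Agent.T9h35.WS
open scoped Classical

theorem choose_rpow' {n k : ℕ} {η x : ℝ} (hx : 0 < x) (hk : 1 ≤ k) (hkn : k ≤ n)
    (hkη : (k : ℝ) ≤ (n : ℝ) ^ (1 - η)) :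
    (n : ℝ) ^ (η * x * k) ≤ (n.choose k : ℝ) ^ x := by
  have hk0 : (0 : ℝ) < k := by exact_mod_cast hk
  have hn0 : (0 : ℝ) < n := by
    have : 0 < n := by omega
    exact_mod_cast this
  have h1 : ((n : ℝ) / k) ^ k ≤ (n.choose k : ℝ) := by
    rw [div_pow, div_le_iff₀ (pow_pos hk0 k), mul_comm]
    exact_mod_cast pow_le_choose_mul k n hkn
  have h2 : (n : ℝ) ^ η ≤ (n : ℝ) / k := by
    rw [le_div_iff₀ hk0]
    calc (n : ℝ) ^ η * k ≤ (n : ℝ) ^ η * (n : ℝ) ^ (1 - η) :=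
          mul_le_mul_of_nonneg_left hkη (by positivity)
      _ = n := by
          rw [← Real.rpow_add hn0]
          have : η + (1 - η) = 1 := by ring
          rw [this, Real.rpow_one]
  calc (n : ℝ) ^ (η * x * k) = (((n : ℝ) ^ η) ^ k) ^ x := by
        rw [← Real.rpow_natCast, ← Real.rpow_mul hn0.le, ← Real.rpow_mul hn0.le]
        congr 1
        ring
    _ ≤ (((n : ℝ) / k) ^ k) ^ x := by
        apply Real.rpow_le_rpow (by positivity) _ hx.le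
        exact pow_le_pow_left₀ (by positivity) h2 k
    _ ≤ (n.choose k : ℝ) ^ x := Real.rpow_le_rpow (by positivity) h1 hx.le

/-- The comparison for small `j`. -/
theorem small_compare {n j R : ℕ} {ε : ℝ} (hε : 0 < ε) (hε1 : ε ≤ 1) (hj : 1 ≤ j) (hjn : j ≤ n)
    (hjδ : (j : ℝ) ≤ (n : ℝ) ^ (ε / 4)) (hR : 1 ≤ R) :
    (R : ℝ) ^ ((j : ℝ) / 2) * (n.choose j : ℝ) ^ (ε / 2) ≤
      (max 1 ((R : ℝ) / (j : ℝ) ^ 2)) ^ ((j : ℝ) / 2) * (n.choose j : ℝ) ^ ε := by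
  have hj0 : (0 : ℝ) < j := by exact_mod_cast hj
  have hn1 : (1 : ℝ) ≤ n := by
    have : 1 ≤ n := by omega
    exact_mod_cast this
  have hn0 : (0 : ℝ) < n := by linarith
  have hC0 : (0 : ℝ) < (n.choose j : ℝ) := by exact_mod_cast Nat.choose_pos hjn
  obtain ⟨X, hX⟩ : ∃ X, X = max 1 ((R : ℝ) / (j : ℝ) ^ 2) := ⟨_, rfl⟩
  have hX1 : 1 ≤ X := hX ▸ le_max_left _ _
  have hX2 : (R : ℝ) / (j : ℝ) ^ 2 ≤ X := hX ▸ le_max_right _ _
  have hX0 : 0 < X := by linarith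
  rw [← hX]
  have h1 : (R : ℝ) ≤ X * (j : ℝ) ^ 2 := by
    rwa [div_le_iff₀ (by positivity)] at hX2
  have h2 : (R : ℝ) ^ ((j : ℝ) / 2) ≤ X ^ ((j : ℝ) / 2) * (j : ℝ) ^ (j : ℝ) := by
    calc (R : ℝ) ^ ((j : ℝ) / 2) ≤ (X * (j : ℝ) ^ 2) ^ ((j : ℝ) / 2) :=
          Real.rpow_le_rpow (Nat.cast_nonneg _) h1 (by positivity)
      _ = X ^ ((j : ℝ) / 2) * (j : ℝ) ^ (j : ℝ) := by
          rw [Real.mul_rpow hX0.le (by positivity), ← Real.rpow_natCast (j : ℝ) 2,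
            ← Real.rpow_mul hj0.le]
          congr 2
          push_cast
          ring
  have h3 : (j : ℝ) ^ (j : ℝ) ≤ (n.choose j : ℝ) ^ (ε / 2) := by
    have h4 : (n : ℝ) ^ ((1 - ε / 4) * (ε / 2) * j) ≤ (n.choose j : ℝ) ^ (ε / 2) := by
      apply choose_rpow' (by positivity) hj hjn
      have : 1 - (1 - ε / 4) = ε / 4 := by ring
      rw [this]
      exact hjδ
    refine le_trans ?_ h4
    calc (j : ℝ) ^ (j : ℝ) ≤ ((n : ℝ) ^ (ε / 4)) ^ (j : ℝ) :=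
          Real.rpow_le_rpow hj0.le hjδ hj0.le
      _ = (n : ℝ) ^ (ε / 4 * j) := by rw [← Real.rpow_mul hn0.le]
      _ ≤ (n : ℝ) ^ ((1 - ε / 4) * (ε / 2) * j) := by
          apply Real.rpow_le_rpow_of_exponent_le hn1
          apply mul_le_mul_of_nonneg_right _ hj0.le
          nlinarith
  calc (R : ℝ) ^ ((j : ℝ) / 2) * (n.choose j : ℝ) ^ (ε / 2)
      ≤ (X ^ ((j : ℝ) / 2) * (j : ℝ) ^ (j : ℝ)) * (n.choose j : ℝ) ^ (ε / 2) :=
        mul_le_mul_of_nonneg_right h2 (by positivity)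
    _ ≤ (X ^ ((j : ℝ) / 2) * (n.choose j : ℝ) ^ (ε / 2)) * (n.choose j : ℝ) ^ (ε / 2) := by
        apply mul_le_mul_of_nonneg_right _ (by positivity)
        exact mul_le_mul_of_nonneg_left h3 (by positivity)
    _ = X ^ ((j : ℝ) / 2) * (n.choose j : ℝ) ^ ε := by
        rw [mul_assoc, ← Real.rpow_add hC0]
        congr 2
        ring

theorem base_mono {K K' L : ℕ} (hK : 0 < K) (h : K ≤ K') (hL : 1 ≤ L) :
    (K * L) ^ K ≤ (K' * L) ^ K' := by
  calc (K * L) ^ K ≤ (K' * L) ^ K := Nat.pow_le_pow_left (Nat.mul_le_mul_right _ h) _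
    _ ≤ (K' * L) ^ K' := Nat.pow_le_pow_right (Nat.mul_pos (by omega) (by omega)) h

/-- One circuit, one graph, the sharp bound. -/
theorem one_graph_sharp (ε : ℝ) (hε : 0 < ε) : ∃ K : ℕ, 0 < K ∧
    ∀ (n k j : ℕ) (C : Circuit (Pair n)), 3 ≤ j → j ≤ k → k ≤ n →
    (j : ℝ) ≤ ((n - k + j : ℕ) : ℝ) ^ (1 - ε) →
    (K * (Nat.log 2 (C.size + C.numReads + 1) + 1)) ^ K ≤ (n - k + j) / j →
    (∀ G : SimpleGraph (Fin n), C.eval (edgeValues G) = true → HasClique k G) →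
    ∀ R : ℕ, 1 ≤ R → ¬ HasChain C k R →
      ((univ.filter fun S : Finset (Fin n) => S.card = k ∧ Finds C S).card : ℝ) ≤
        ((C.size + C.numReads + 1 : ℕ) : ℝ) * (max 1 ((R : ℝ) / (j : ℝ) ^ 2)) ^ ((j : ℝ) / 2) /
          ((n - k + j).choose j : ℝ) ^ (1 - ε) * (n.choose k : ℝ) := by
  obtain ⟨ε₁, hε₁⟩ : ∃ ε₁, ε₁ = min ε 1 := ⟨_, rfl⟩
  have hε₁0 : 0 < ε₁ := by
    rw [hε₁]
    exact lt_min hε one_pos
  have hε₁1 : ε₁ ≤ 1 := by
    rw [hε₁]
    exact min_le_right _ _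
  have hε₁ε : ε₁ ≤ ε := by
    rw [hε₁]
    exact min_le_left _ _
  obtain ⟨K1, hK10, hK1⟩ := large_circuit (ε₁ / 4) ε₁ (by positivity) hε₁0
  obtain ⟨K2, hK20, hK2⟩ := one_graph (ε₁ / 2) (by positivity)
  refine ⟨K1 + K2, by omega, ?_⟩
  intro n k j C hj3 hjk hkn hjε hew hs R hR hno
  obtain ⟨n', hn'⟩ : ∃ n', n' = n - k + j := ⟨_, rfl⟩
  have hjn' : j ≤ n' := by omega
  have hn'1 : (1 : ℝ) ≤ n' := by
    have : 1 ≤ n' := by omega
    exact_mod_cast this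
  have hC1 : (1 : ℝ) ≤ (n'.choose j : ℝ) := by exact_mod_cast Nat.choose_pos hjn'
  have hC0 : (0 : ℝ) < (n'.choose j : ℝ) := by linarith
  rw [← hn'] at hjε hew
  have hjε₁ : (j : ℝ) ≤ (n' : ℝ) ^ (1 - ε₁) :=
    hjε.trans (Real.rpow_le_rpow_of_exponent_le hn'1 (by linarith))
  obtain ⟨S, hS⟩ : ∃ S, S = C.size + C.numReads + 1 := ⟨_, rfl⟩
  have hS1 : (1 : ℝ) ≤ (S : ℝ) := by
    have : 1 ≤ S := by omega
    exact_mod_cast this
  obtain ⟨X, hX⟩ : ∃ X, X = max 1 ((R : ℝ) / (j : ℝ) ^ 2) := ⟨_, rfl⟩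
  have hX1 : 1 ≤ X := hX ▸ le_max_left _ _
  have hX0 : 0 < X := by linarith
  have hL1 : 1 ≤ Nat.log 2 S + 1 := by omega
  rw [← hS] at hew ⊢
  rw [← hX]
  have hmain := lift_real hjk hkn C hs R ((S : ℝ) * X ^ ((j : ℝ) / 2) * (n'.choose j : ℝ) ^ ε₁)
    (by positivity) hno (by
      rw [← hn']
      intro C' e1 e2 hs' hno'
      by_cases hjδ : (n' : ℝ) ^ (ε₁ / 4) ≤ j
      · have h1 := hK1 n' j R C' (by omega) hjδ hjε₁ (by
          rw [e1, e2]
          have h2 : (K1 * (Nat.log 2 (C.size + C.numReads) + 1)) ^ K1 ≤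
              (K1 * (Nat.log 2 S + 1)) ^ K1 := by
            apply Nat.pow_le_pow_left
            apply Nat.mul_le_mul_left
            apply Nat.add_le_add_right
            apply Nat.log_mono_right
            omega
          refine h2.trans ((base_mono hK10 (by omega) hL1).trans (hew.trans ?_))
          exact Nat.div_le_self _ _) hs' hR hno'
        rw [← hX] at h1
        refine h1.trans ?_
        rw [mul_assoc]
        exact le_mul_of_one_le_left (by positivity) hS1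
      · have h1 := hK2 n' j j C' hj3 le_rfl hjn' (by
          have e3 : n' - j + j = n' := by omega
          rw [e1, e2, ← hS, e3]
          exact (base_mono hK20 (by omega) hL1).trans hew) hs' R hR hno'
        have e3 : n' - j + j = n' := by omega
        rw [e3, e1, e2, ← hS] at h1
        have h2 := small_compare hε₁0 hε₁1 (by omega) hjn' (not_le.1 hjδ).le hR
        rw [← hX] at h2
        have h3 : (S : ℝ) * (R : ℝ) ^ ((j : ℝ) / 2) / (n'.choose j : ℝ) ^ (1 - ε₁ / 2) *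
            (n'.choose j : ℝ) = (S : ℝ) * ((R : ℝ) ^ ((j : ℝ) / 2) *
              (n'.choose j : ℝ) ^ (ε₁ / 2)) := by
          have h4 : (n'.choose j : ℝ) ^ (1 - ε₁ / 2) * (n'.choose j : ℝ) ^ (ε₁ / 2) =
              (n'.choose j : ℝ) := by
            rw [← Real.rpow_add hC0]
            have : 1 - ε₁ / 2 + ε₁ / 2 = 1 := by ring
            rw [this, Real.rpow_one]
          have h5 : (0 : ℝ) < (n'.choose j : ℝ) ^ (1 - ε₁ / 2) := by positivity
          rw [div_mul_eq_mul_div, div_eq_iff h5.ne']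
          calc (S : ℝ) * (R : ℝ) ^ ((j : ℝ) / 2) * (n'.choose j : ℝ)
              = (S : ℝ) * (R : ℝ) ^ ((j : ℝ) / 2) * ((n'.choose j : ℝ) ^ (1 - ε₁ / 2) *
                (n'.choose j : ℝ) ^ (ε₁ / 2)) := by rw [h4]
            _ = _ := by ring
        rw [h3] at h1
        refine h1.trans ?_
        rw [mul_assoc]
        exact mul_le_mul_of_nonneg_left h2 (by positivity))
  rw [← hn'] at hmain ⊢
  refine hmain.trans (mul_le_mul_of_nonneg_right ?_ (Nat.cast_nonneg _))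
  rw [div_le_div_iff₀ hC0 (by positivity)]
  have h6 : (n'.choose j : ℝ) ^ ε₁ * (n'.choose j : ℝ) ^ (1 - ε) ≤ (n'.choose j : ℝ) := by
    rw [← Real.rpow_add hC0]
    calc (n'.choose j : ℝ) ^ (ε₁ + (1 - ε)) ≤ (n'.choose j : ℝ) ^ (1 : ℝ) :=
          Real.rpow_le_rpow_of_exponent_le hC1 (by linarith)
      _ = _ := Real.rpow_one _
  calc (S : ℝ) * X ^ ((j : ℝ) / 2) * (n'.choose j : ℝ) ^ ε₁ * (n'.choose j : ℝ) ^ (1 - ε)
      = (S : ℝ) * X ^ ((j : ℝ) / 2) * ((n'.choose j : ℝ) ^ ε₁ * (n'.choose j : ℝ) ^ (1 - ε)) := by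
        ring
    _ ≤ (S : ℝ) * X ^ ((j : ℝ) / 2) * (n'.choose j : ℝ) :=
        mul_le_mul_of_nonneg_left h6 (by positivity)

/-- The theorem. -/
theorem main (ε : ℝ) (hε : 0 < ε) : ∃ K : ℕ, 0 < K ∧
    ∀ (U : Type) [Fintype U] (M n k j : ℕ) (c : ℝ) (D : U → Circuit (Fin M × Pair n)),
    1 ≤ M → 3 ≤ j → j ≤ k → k ≤ n →
    (c = 1 ∨ (c = (j : ℝ) ^ 2 ∧ (j : ℝ) ≤ ((n - k + j : ℕ) : ℝ) ^ (1 - ε))) →
    (∀ u, (K * (Nat.log 2 ((D u).size + (D u).numReads + 1) + 1)) ^ K ≤ (n - k + j) / j) →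
    (∀ u (G : Fin M → SimpleGraph (Fin n)), (D u).eval (allValues G) = true →
      ∀ a, HasClique k (G a)) →
    ∃ (m : U → ℕ) (G : U → ℕ → Fin M → SimpleGraph (Fin n)),
      (∀ u i, G u i ≤ G u (i + 1)) ∧ (∀ u i, ∃ a, ¬ HasClique k (G u i a)) ∧
      (∀ u, ∀ i < m u, (D u).reads (allValues (G u i)) ≠
        (D u).reads (allValues (G u (i + 1)))) ∧
      (∀ u, m u + 1 ≤ ((D u).gates.map fun g => g.args.length + 1).prod) ∧
      ({S : Fin M → Finset (Fin n) | (∀ a, (S a).card = k) ∧ ∃ u, FindsAll (D u) S}.ncard : ℝ) ≤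
        (∑ u, (((D u).size + (D u).numReads + 1 : ℕ) *
          (max 1 (((m u + 1 : ℕ) : ℝ) / c)) ^ ((j : ℝ) / 2) /
            ((n - k + j).choose j : ℝ) ^ (1 - ε)) ^ M) * (n.choose k : ℝ) ^ M := by
  obtain ⟨K1, hK10, hK1⟩ := one_graph ε hε
  obtain ⟨K2, hK20, hK2⟩ := one_graph_sharp ε hε
  refine ⟨K1 + K2, by omega, fun U _ M n k j c D hM hj3 hjk hkn hc hew hcl => ?_⟩
  obtain ⟨m, G, h1, h2, h3, h4, h5⟩ := product_of hM (by omega) D
    (fun u R => ((D u).size + (D u).numReads + 1 : ℕ) *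
      (max 1 ((R : ℝ) / c)) ^ ((j : ℝ) / 2) /
      ((n - k + j).choose j : ℝ) ^ (1 - ε) * (n.choose k : ℝ)) (by
      intro u R C e1 e2 hs hR hno
      have hsz : (D u).size + (D u).numReads + 1 = C.size + C.numReads + 1 := by rw [e1, e2]
      have hea := hew u
      simp only [hsz] at hea ⊢
      rcases hc with hc | ⟨hc, hjε⟩
      · have hR1 : (1 : ℝ) ≤ R := by exact_mod_cast hR
        rw [hc, div_one, max_eq_right hR1]
        exact hK1 n k j C hj3 hjk hkn ((base_mono hK10 (by omega) (by omega)).trans hea) hs R hR hno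
      · rw [hc]
        exact hK2 n k j C hj3 hjk hkn hjε ((base_mono hK20 (by omega) (by omega)).trans hea) hs R
          hR hno) hcl
  refine ⟨m, G, h1, h2, h3, h4, h5.trans (le_of_eq ?_)⟩
  rw [sum_mul]
  apply sum_congr rfl
  intro u _
  rw [mul_pow]

end Pool.Agent.T9h36.WN2
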