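import Pool.Agent.T9h36.WN2.Stage

set_option autoImplicit false

/-!
# Several stages: from `k` vertices to few vertices
-/

namespace Pool.Agent.T9h36.WN2

open Finset Pool.Agent.T9h34 Pool.Agent.T9h16 Pool.Agent.T9h35.Sharp Pool.Agent.T9h35.NearBF
open Pool.Agent.T9h36.WN
open scoped Classical

variable {n : ℕ}

theorem pow_self_le (j : ℕ) : ((j : ℝ)) ^ j ≤ 4 ^ j * j.factorial := by
  have h1 := Real.pow_div_factorial_le_exp (j : ℝ) (Nat.cast_nonneg _) j
  have h2 : (0 : ℝ) < j.factorial := by exact_mod_cast Nat.factorial_pos j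
  rw [div_le_iff₀ h2] at h1
  refine h1.trans (mul_le_mul_of_nonneg_right ?_ h2.le)
  have h3 : Real.exp (j : ℝ) = Real.exp 1 ^ j := by
    rw [← Real.exp_nat_mul, mul_one]
  rw [h3]
  apply pow_le_pow_left₀ (Real.exp_pos _).le
  have := Real.exp_one_lt_d9
  linarith

/-- The step of the iteration for the numbers. -/
theorem iter_numbers {κ D T i k : ℕ} (hκ : 1 ≤ κ) (hT : 1 ≤ T) (hD : 2 * T ≤ D)
    (h1 : κ * D ^ (i + 2) < k) (h2 : k ≤ κ * D ^ (i + 3)) :
    ∃ j, 1 ≤ j ∧ T * j ≤ k ∧ k ≤ j * D ∧ κ * T ≤ j ∧ j ≤ κ * D ^ (i + 2) ∧ j ≤ k := by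
  have hD0 : 1 ≤ D := by omega
  have hpow : 1 ≤ D ^ (i + 1) := Nat.one_le_pow _ _ (by omega)
  have hDk : D ≤ k := by
    have h3 : D ≤ κ * D ^ (i + 2) := by
      calc D = 1 * (1 * D) := by ring
        _ ≤ κ * (D ^ (i + 1) * D) := Nat.mul_le_mul hκ (Nat.mul_le_mul_right _ hpow)
        _ = κ * D ^ (i + 2) := by ring
    omega
  obtain ⟨j, hj⟩ : ∃ j, j = (k + D - 1) / D := ⟨_, rfl⟩
  have hjD1 : k ≤ j * D := by
    have h3 := Nat.div_add_mod (k + D - 1) D
    have h4 := Nat.mod_lt (k + D - 1) (show 0 < D by omega)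
    rw [← hj] at h3
    rw [mul_comm]
    omega
  have hjD2 : j * D ≤ k + D - 1 := by
    rw [hj]
    exact Nat.div_mul_le_self _ _
  have hTj : T * j ≤ k := by
    have h3 : 2 * T * j ≤ D * j := Nat.mul_le_mul_right _ hD
    have h4 : D * j ≤ k + D - 1 := by
      rw [mul_comm]
      exact hjD2
    have h5 : 2 * T * j = 2 * (T * j) := by ring
    omega
  have hκj : κ * D ^ (i + 1) ≤ j := by
    have h3 : κ * D ^ (i + 1) * D ≤ j * D := by
      calc κ * D ^ (i + 1) * D = κ * D ^ (i + 2) := by ring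
        _ ≤ k := h1.le
        _ ≤ j * D := hjD1
    exact Nat.le_of_mul_le_mul_right h3 (by omega)
  have hκT : κ * T ≤ j := by
    refine le_trans (Nat.mul_le_mul_left _ ?_) hκj
    calc T ≤ D := by omega
      _ = D ^ 1 := by ring
      _ ≤ D ^ (i + 1) := Nat.pow_le_pow_right hD0 (by omega)
  have hj1 : 1 ≤ j := by
    have : 1 * 1 ≤ κ * T := Nat.mul_le_mul hκ hT
    omega
  refine ⟨j, hj1, hTj, hjD1, hκT, ?_, le_trans (Nat.le_mul_of_pos_left j hT) hTj⟩
  have h3 : j * D < (κ * D ^ (i + 2) + 1) * D := by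
    have h4 : (κ * D ^ (i + 2) + 1) * D = κ * D ^ (i + 3) + D := by ring
    omega
  have h4 := Nat.lt_of_mul_lt_mul_right h3
  omega

/-- Several stages. -/
theorem iterate (C : Circuit (Pair n)) {a T D κ : ℕ} (ha : 2 ≤ a) (hn : n ≤ a ^ T) (hT : 1 ≤ T)
    (hD : 2 * T ≤ D) (hκ : 1 ≤ κ) (lam : ℝ) (hlam : 1 ≤ lam) (i : ℕ) :
    ∀ (k : ℕ) (Λ : Type) [Fintype Λ] (lab : Fin n → Option Λ) (F : Finset (Fin k → Fin n)),
    κ * T ≤ k → k ≤ κ * D ^ (i + 2) → (D : ℝ) ^ 2 * k ≤ lam → (∀ f ∈ F, Good C lab f) →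
    ((a : ℝ) * (256 * a) ^ i * lam) ^ k ≤ F.card →
    ∃ (Λ' : Type) (_ : Fintype Λ') (lab' : Fin n → Option Λ') (cc : Fin n → Fin κ)
      (P : Finset (Fin κ → Fin n)), Fintype.card Λ' + κ = Fintype.card Λ + k ∧
      (∀ φ ∈ P, Good C lab' φ ∧ ∀ i, cc (φ i) = i) ∧
      lam ^ κ ≤ P.card * (64 * (κ : ℝ)) ^ κ := by
  have ha0 : (0 : ℝ) < a := by
    have : 0 < a := by omega
    exact_mod_cast this
  have ha1 : (1 : ℝ) ≤ a := by
    have : 1 ≤ a := by omega
    exact_mod_cast this
  induction i with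
  | zero =>
    intro k Λ _ lab F hTk hk hlamk hF hcard
    rw [pow_zero, mul_one] at hcard
    refine stage C lab ha hn hκ hT (by rw [mul_comm]; exact hTk) lam hlam ?_ F hF hcard
    have h1 : (k : ℝ) ≤ κ * D ^ 2 := by exact_mod_cast hk
    calc (k : ℝ) * k ≤ (κ * D ^ 2) * k := mul_le_mul_of_nonneg_right h1 (Nat.cast_nonneg _)
      _ = κ * (D ^ 2 * k) := by ring
      _ ≤ κ * lam := mul_le_mul_of_nonneg_left hlamk (Nat.cast_nonneg _)
  | succ i ih =>
    intro k Λ _ lab F hTk hk hlamk hF hcard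
    by_cases hk' : k ≤ κ * D ^ (i + 2)
    · refine ih k Λ lab F hTk hk' hlamk hF (le_trans ?_ hcard)
      apply pow_le_pow_left₀ (by positivity)
      apply mul_le_mul_of_nonneg_right _ (by linarith)
      apply mul_le_mul_of_nonneg_left _ ha0.le
      apply pow_le_pow_right₀ _ (by omega)
      linarith
    · rw [not_le] at hk'
      obtain ⟨j, hj1, hTj, hkD, hκT, hjκ, hjk⟩ := iter_numbers hκ hT hD hk' hk
      obtain ⟨lam', hlam'⟩ : ∃ lam', lam' = (256 * (a : ℝ)) ^ (i + 1) * lam := ⟨_, rfl⟩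
      have hone : (1 : ℝ) ≤ (256 * (a : ℝ)) ^ (i + 1) := one_le_pow₀ (by linarith)
      have hll : lam ≤ lam' := by
        rw [hlam']
        exact le_mul_of_one_le_left (by linarith) hone
      have hD1 : (1 : ℝ) ≤ D := by
        have : 1 ≤ D := by omega
        exact_mod_cast this
      obtain ⟨Λ₁, inst₁, lab₁, cc₁, P₁, hc₁, hP₁, hcard₁⟩ := stage C lab ha hn hj1 hT hTj lam'
        (hlam.trans hll) (by
          have h1 : (k : ℝ) ≤ j * D := by exact_mod_cast hkD
          calc (k : ℝ) * k ≤ (j * D) * k := mul_le_mul_of_nonneg_right h1 (Nat.cast_nonneg _)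
            _ = j * (D * k) := by ring
            _ ≤ j * lam' := by
                apply mul_le_mul_of_nonneg_left _ (Nat.cast_nonneg _)
                refine le_trans ?_ (hlamk.trans hll)
                apply mul_le_mul_of_nonneg_right _ (Nat.cast_nonneg _)
                nlinarith) F hF (by
          rw [hlam', ← mul_assoc]
          exact hcard)
      obtain ⟨F₁, hF₁, hcardF₁⟩ := symm_family C lab₁ cc₁ P₁ hP₁
      obtain ⟨Λ', inst', lab', cc, P, hc, hP, hcardP⟩ := ih j Λ₁ lab₁ F₁ hκT hjκ (by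
          refine le_trans ?_ hlamk
          apply mul_le_mul_of_nonneg_left _ (by positivity)
          exact_mod_cast hjk) hF₁ (by
          rw [hcardF₁]
          push_cast
          obtain ⟨X, hX⟩ : ∃ X, X = (a : ℝ) * (256 * a) ^ i * lam := ⟨_, rfl⟩
          rw [← hX]
          have h1 : lam' = 256 * X := by
            rw [hlam', hX]
            ring
          rw [h1] at hcard₁
          have h2 := pow_self_le j
          have h3 : (256 : ℝ) ^ j * X ^ j ≤ 256 ^ j * (j.factorial * P₁.card) := by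
            calc (256 : ℝ) ^ j * X ^ j = (256 * X) ^ j := by rw [mul_pow]
              _ ≤ P₁.card * (64 * (j : ℝ)) ^ j := hcard₁
              _ = P₁.card * (64 ^ j * (j : ℝ) ^ j) := by rw [mul_pow]
              _ ≤ P₁.card * (64 ^ j * (4 ^ j * j.factorial)) := by gcongr
              _ = (64 * 4) ^ j * (j.factorial * P₁.card) := by rw [mul_pow]; ring
              _ = 256 ^ j * (j.factorial * P₁.card) := by norm_num
          exact le_of_mul_le_mul_left h3 (by positivity))
      refine ⟨Λ', inst', lab', cc, P, ?_, hP, hcardP⟩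
      omega

/-- The family of the orderings of the sets that are found. -/
theorem start_family (C : Circuit (Pair n)) (k : ℕ) (F : Finset (Finset (Fin n)))
    (hF : ∀ S ∈ F, S.card = k ∧ Finds C S) :
    ∃ F' : Finset (Fin k → Fin n), (∀ f ∈ F', Good C (fun _ => (none : Option Empty)) f) ∧
      F'.card = k.factorial * F.card := by
  refine ⟨((univ : Finset (Equiv.Perm (Fin k))) ×ˢ F.attach).image fun x =>
    fun i => x.2.1.orderEmbOfFin (hF x.2.1 x.2.2).1 (x.1 i), ?_, ?_⟩
  · intro f hf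
    rw [mem_image] at hf
    obtain ⟨⟨σ, S, hS⟩, -, rfl⟩ := hf
    simp only
    refine ⟨fun i i' h => ?_, fun l => rfl, ?_⟩
    · exact σ.injective ((S.orderEmbOfFin (hF S hS).1).injective h)
    · intro H hH
      have h1 : LG (fun _ => (none : Option Empty)) H = H := by
        ext x y
        rw [LG_adj]
        exact ⟨fun h => h.elim (fun h2 => absurd rfl h2) fun h2 => h2.2.2,
          fun h => Or.inr ⟨rfl, rfl, h⟩⟩
      rw [h1]
      apply (hF S hS).2 H
      intro x hx y hy hxy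
      have h2 : (S : Set (Fin n)) = Set.range (S.orderEmbOfFin (hF S hS).1) :=
        (range_orderEmbOfFin S (hF S hS).1).symm
      rw [h2] at hx hy
      obtain ⟨a, rfl⟩ := hx
      obtain ⟨b, rfl⟩ := hy
      have h3 := hH (σ.symm a) (σ.symm b) (fun h => hxy (by rw [σ.symm.injective h]))
      simpa using h3
  · rw [card_image_of_injOn, card_product, card_univ, Fintype.card_perm, Fintype.card_fin,
      card_attach]
    rintro ⟨σ, S, hS⟩ - ⟨σ', S', hS'⟩ - h
    simp only at h
    have h1 : S = S' := by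
      have h2 : (S : Set (Fin n)) = Set.range (S.orderEmbOfFin (hF S hS).1) :=
        (range_orderEmbOfFin S (hF S hS).1).symm
      have h3 : (S' : Set (Fin n)) = Set.range (S'.orderEmbOfFin (hF S' hS').1) :=
        (range_orderEmbOfFin S' (hF S' hS').1).symm
      rw [← coe_inj, h2, h3]
      ext x
      constructor
      · rintro ⟨i, rfl⟩
        refine ⟨σ' (σ.symm i), ?_⟩
        have h4 := congrFun h (σ.symm i)
        simp only [Equiv.apply_symm_apply] at h4
        exact h4.symm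
      · rintro ⟨i, rfl⟩
        refine ⟨σ (σ'.symm i), ?_⟩
        have h4 := congrFun h (σ'.symm i)
        simp only [Equiv.apply_symm_apply] at h4
        exact h4
    subst h1
    have h2 : σ = σ' := by
      ext i
      have h3 := (S.orderEmbOfFin (hF S hS).1).injective (congrFun h i)
      exact congrArg Fin.val h3
    rw [h2]

/-- Few sets are found, unless the values read change often along a chain. -/
theorem few_found_large (C : Circuit (Pair n)) {k m a T D i R Q : ℕ}
    (hs : ∀ G : SimpleGraph (Fin n), C.eval (edgeValues G) = true → HasClique k G)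
    (hS : Single C m n R Q) (hno : ¬ HasChain C k R)
    (ha : 2 ≤ a) (hn : n ≤ a ^ T) (hT : 1 ≤ T) (hD : 2 * T ≤ D) (hTk : (m + 1) * T ≤ k)
    (hk : k ≤ (m + 1) * D ^ (i + 2)) (lam : ℝ) (hlam : 1 ≤ lam) (hDk : (D : ℝ) ^ 2 * k ≤ lam)
    (hQ : (Q : ℝ) * (64 * ((m + 1 : ℕ) : ℝ)) ^ (m + 1) < lam ^ (m + 1)) :
    ((k.factorial * (univ.filter fun S : Finset (Fin n) => S.card = k ∧ Finds C S).card : ℕ) : ℝ) <
      ((a : ℝ) * (256 * a) ^ i * lam) ^ k := by
  by_contra hcon
  rw [not_lt] at hcon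
  obtain ⟨F', hF', hcard⟩ := start_family C k
    (univ.filter fun S : Finset (Fin n) => S.card = k ∧ Finds C S)
    (fun S hS => (mem_filter.1 hS).2)
  rw [← hcard] at hcon
  obtain ⟨Λ', _, lab', cc, P, h1, h2, h3⟩ := iterate C ha hn hT hD (Nat.succ_pos m) lam hlam i k
    Empty (fun _ => none) F' hTk hk hDk hF' hcon
  rw [Fintype.card_empty, zero_add] at h1
  have h4 := few_last C hs lab' (by omega) cc P (fun φ hφ => ⟨(h2 φ hφ).1.2.2, (h2 φ hφ).2⟩) hS hno
  have h5 : (P.card : ℝ) ≤ Q := by exact_mod_cast h4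
  have h6 := h3.trans (mul_le_mul_of_nonneg_right h5 (by positivity))
  exact absurd hQ (not_lt.2 h6)

end Pool.Agent.T9h36.WN2
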