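import Pool.Agent.T9h34.N.Moment

set_option autoImplicit false

/-!
# Projecting a family to few large classes
-/

namespace Pool.Agent.T9h36.WN2

open Finset
open scoped Classical

variable {ι V : Type} [Fintype ι] [Fintype V]

set_option linter.unusedSectionVars false

/-- The members of the family which agree with `g` on `J`. -/
noncomputable def agr (F : Finset (ι → V)) (J : Finset ι) (g : ι → V) : Finset (ι → V) :=
  F.filter fun f => ∀ l ∈ J, f l = g l

theorem mem_agr {F : Finset (ι → V)} {J : Finset ι} {g f : ι → V} :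
    f ∈ agr F J g ↔ f ∈ F ∧ ∀ l ∈ J, f l = g l := by
  rw [agr, mem_filter]

/-- Fixing some vertices makes the family spread. -/
theorem exists_spread {a T : ℕ} (ha : 2 ≤ a) (hn : Fintype.card V ≤ a ^ T) (lam : ℝ)
    (hlam : 1 ≤ lam) (F : Finset (ι → V))
    (hcard : ((a : ℝ) * lam) ^ (Fintype.card ι) ≤ F.card) :
    ∃ (J : Finset ι) (g : ι → V), (agr F J g).Nonempty ∧
      Fintype.card ι ≤ T * (Fintype.card ι - J.card) ∧
      ∀ f ∈ agr F J g, ∀ J' ⊆ Jᶜ,
        ((agr (agr F J g) J' f).card : ℝ) * lam ^ J'.card ≤ (agr F J g).card := by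
  have ha0 : (0 : ℝ) < a := by
    have : 0 < a := by omega
    exact_mod_cast this
  have hl0 : 0 < lam := by linarith
  obtain ⟨k, hk⟩ : ∃ k, k = Fintype.card ι := ⟨_, rfl⟩
  obtain ⟨n, hn'⟩ : ∃ n, n = Fintype.card V := ⟨_, rfl⟩
  rw [← hk] at hcard ⊢
  rw [← hn'] at hn
  have hFpos : (0 : ℝ) < F.card := lt_of_lt_of_le (pow_pos (mul_pos ha0 hl0) k) hcard
  have hFne : F.Nonempty := by
    rw [← card_pos]
    exact_mod_cast hFpos
  obtain ⟨f₀, hf₀⟩ := hFne
  have : Nonempty (Finset ι × (ι → V)) := ⟨(∅, f₀)⟩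
  obtain ⟨⟨J, g⟩, hmax⟩ := Finite.exists_max (fun x : Finset ι × (ι → V) =>
    ((agr F x.1 x.2).card : ℝ) * lam ^ x.1.card)
  simp only at hmax
  obtain ⟨𝓖, h𝓖⟩ : ∃ 𝓖, 𝓖 = agr F J g := ⟨_, rfl⟩
  rw [← h𝓖] at hmax
  have h1 : (F.card : ℝ) ≤ 𝓖.card * lam ^ J.card := by
    have h2 := hmax (∅, g)
    have h3 : agr F ∅ g = F := by
      ext f
      rw [mem_agr]
      simp
    rw [h3] at h2
    simpa using h2
  have hG0 : (0 : ℝ) < 𝓖.card := by
    by_contra hcon
    have h2 : (𝓖.card : ℝ) = 0 := le_antisymm (not_lt.1 hcon) (Nat.cast_nonneg _)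
    rw [h2, zero_mul] at h1
    linarith
  have hlJ : 0 < lam ^ J.card := pow_pos hl0 _
  refine ⟨J, g, ?_, ?_, ?_⟩
  · rw [← h𝓖, ← card_pos]
    exact_mod_cast hG0
  · -- the number of functions
    have hJk : J.card ≤ k := by
      have h2 := card_le_univ J
      rwa [← hk] at h2
    have h2 : 𝓖.card ≤ n ^ (k - J.card) := by
      have h3 : 𝓖.card ≤ Fintype.card ((Jᶜ : Finset ι) → V) := by
        rw [← card_univ]
        refine card_le_card_of_injOn (fun f => fun l : (Jᶜ : Finset ι) => f l)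
          (fun _ _ => mem_coe.2 (mem_univ _)) ?_
        intro f hf f' hf' hff
        rw [mem_coe, h𝓖, mem_agr] at hf hf'
        funext l
        by_cases hl : l ∈ J
        · rw [hf.2 l hl, hf'.2 l hl]
        · exact congrFun hff ⟨l, mem_compl.2 hl⟩
      rwa [Fintype.card_fun, Fintype.card_coe, card_compl, ← hk, ← hn'] at h3
    have h3 : (a : ℝ) ^ k ≤ (a : ℝ) ^ (T * (k - J.card)) := by
      have h4 : (a : ℝ) ^ k * lam ^ k ≤ (n : ℝ) ^ (k - J.card) * lam ^ J.card := by
        rw [← mul_pow]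
        refine hcard.trans (h1.trans ?_)
        refine mul_le_mul_of_nonneg_right ?_ hlJ.le
        exact_mod_cast h2
      have h5 : lam ^ J.card ≤ lam ^ k := pow_le_pow_right₀ hlam hJk
      have h6 : (a : ℝ) ^ k * lam ^ k ≤ (n : ℝ) ^ (k - J.card) * lam ^ k :=
        h4.trans (mul_le_mul_of_nonneg_left h5 (by positivity))
      have h7 : (a : ℝ) ^ k ≤ (n : ℝ) ^ (k - J.card) :=
        le_of_mul_le_mul_right h6 (pow_pos hl0 k)
      refine h7.trans ?_
      rw [pow_mul]
      refine pow_le_pow_left₀ (Nat.cast_nonneg _) ?_ _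
      exact_mod_cast hn
    have h4 : a ^ k ≤ a ^ (T * (k - J.card)) := by exact_mod_cast h3
    exact (Nat.pow_le_pow_iff_right (by omega)).1 h4
  · intro f hf J' hJ'
    rw [← h𝓖] at hf ⊢
    have h2 := hmax (J ∪ J', f)
    simp only at h2
    have hdisj : Disjoint J J' := by
      rw [disjoint_left]
      intro l hl hl'
      exact (mem_compl.1 (hJ' hl')) hl
    rw [card_union_of_disjoint hdisj, pow_add] at h2
    have h3 : agr F (J ∪ J') f = agr 𝓖 J' f := by
      rw [h𝓖, mem_agr] at hf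
      ext f'
      rw [h𝓖, mem_agr, mem_agr, mem_agr]
      constructor
      · rintro ⟨h4, h5⟩
        refine ⟨⟨h4, fun l hl => ?_⟩, fun l hl => h5 l (mem_union_right _ hl)⟩
        rw [h5 l (mem_union_left _ hl), hf.2 l hl]
      · rintro ⟨⟨h4, h5⟩, h6⟩
        refine ⟨h4, fun l hl => ?_⟩
        rcases mem_union.1 hl with h | h
        · rw [h5 l h, hf.2 l h]
        · exact h6 l h
    rw [h3] at h2
    have h4 : ((agr 𝓖 J' f).card : ℝ) * lam ^ J'.card * lam ^ J.card ≤
        𝓖.card * lam ^ J.card := by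
      calc ((agr 𝓖 J' f).card : ℝ) * lam ^ J'.card * lam ^ J.card
          = ((agr 𝓖 J' f).card : ℝ) * (lam ^ J.card * lam ^ J'.card) := by ring
        _ ≤ _ := h2
    exact le_of_mul_le_mul_right h4 hlJ

/-- The estimate of the second moment method with `j` large classes. -/
theorem numbers {k j s : ℕ} (hj : 1 ≤ j) (hjk : j ≤ k) (hs1 : k ≤ j * s) (hs2 : j * s ≤ 2 * k)
    (lam : ℝ) (hl0 : 0 < lam) (hk : (k : ℝ) * k ≤ j * lam) (I B : Finset ι) (hBj : B.card = j)
    (hI : I.card ≤ k) (w : ι → ℝ) (hw1 : ∀ l, 1 / ((k : ℝ) + j * s) ≤ w l)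
    (hw2 : ∀ l ∈ B, s / ((k : ℝ) + j * s) ≤ w l) (p : ℝ) (hp : 0 ≤ p)
    (h : ∏ l ∈ B, (lam * w l) ≤ p * ∏ l ∈ I \ B, (1 + 1 / (lam * w l))) :
    lam ^ j ≤ p * (64 * j) ^ j := by
  have hj0 : (0 : ℝ) < j := by exact_mod_cast hj
  have hk0 : (0 : ℝ) < k := lt_of_lt_of_le hj0 (by exact_mod_cast hjk)
  have hs1' : (k : ℝ) ≤ j * s := by exact_mod_cast hs1
  have hs2' : (j : ℝ) * s ≤ 2 * k := by exact_mod_cast hs2
  have hs0 : (0 : ℝ) < s := by
    by_contra hcon
    have h1 : (s : ℝ) = 0 := le_antisymm (not_lt.1 hcon) (Nat.cast_nonneg _)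
    rw [h1, mul_zero] at hs1'
    linarith
  have hΓ : (0 : ℝ) < (k : ℝ) + j * s := by positivity
  have hw0 : ∀ l, 0 < w l := fun l => lt_of_lt_of_le (by positivity) (hw1 l)
  have h1 : (lam / (2 * j)) ^ j ≤ ∏ l ∈ B, (lam * w l) := by
    calc (lam / (2 * j)) ^ j = ∏ _l ∈ B, (lam / (2 * j)) := by rw [prod_const, hBj]
      _ ≤ _ := by
          apply prod_le_prod
          · intro l _
            positivity
          · intro l hl
            rw [div_eq_mul_inv]
            refine mul_le_mul_of_nonneg_left (le_trans ?_ (hw2 l hl)) hl0.le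
            rw [inv_eq_one_div, div_le_div_iff₀ (by positivity) hΓ]
            nlinarith
  have h2 : ∏ l ∈ I \ B, (1 + 1 / (lam * w l)) ≤ (21 : ℝ) ^ j := by
    have h3 : ∏ l ∈ I \ B, (1 + 1 / (lam * w l)) ≤ ∏ _l ∈ I \ B, Real.exp (3 * k / lam) := by
      apply prod_le_prod
      · intro l _
        have := hw0 l
        positivity
      · intro l _
        have h4 : 1 / (lam * w l) ≤ 3 * k / lam := by
          rw [div_le_div_iff₀ (mul_pos hl0 (hw0 l)) hl0]
          have h5 : 1 ≤ ((k : ℝ) + j * s) * w l := by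
            have h6 := hw1 l
            rw [div_le_iff₀ hΓ] at h6
            linarith
          have h7 : 1 ≤ (3 * k) * w l := by
            refine h5.trans (mul_le_mul_of_nonneg_right ?_ (hw0 l).le)
            linarith
          calc 1 * lam = lam * 1 := by ring
            _ ≤ lam * ((3 * k) * w l) := mul_le_mul_of_nonneg_left h7 hl0.le
            _ = 3 * k * (lam * w l) := by ring
        have h5 := Real.add_one_le_exp (3 * k / lam)
        linarith
    refine h3.trans ?_
    rw [prod_const]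
    have h4 : (I \ B).card ≤ k := (card_le_card sdiff_subset).trans hI
    have h5 : (1 : ℝ) ≤ Real.exp (3 * k / lam) := by
      rw [← Real.exp_zero]
      apply Real.exp_le_exp.2
      positivity
    calc Real.exp (3 * k / lam) ^ (I \ B).card ≤ Real.exp (3 * k / lam) ^ k :=
          pow_le_pow_right₀ h5 h4
      _ = Real.exp (k * (3 * k / lam)) := by rw [← Real.exp_nat_mul]
      _ ≤ Real.exp (j * 3) := by
          apply Real.exp_le_exp.2
          rw [mul_div_assoc', div_le_iff₀ hl0]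
          nlinarith
      _ = Real.exp 3 ^ j := by rw [Real.exp_nat_mul]
      _ ≤ (21 : ℝ) ^ j := by
          apply pow_le_pow_left₀ (Real.exp_pos _).le
          have h6 : Real.exp 3 = Real.exp 1 ^ 3 := by
            rw [← Real.exp_nat_mul]
            norm_num
          rw [h6]
          have h7 := Real.exp_one_lt_d9
          calc Real.exp 1 ^ 3 ≤ 2.7182818286 ^ 3 :=
                pow_le_pow_left₀ (Real.exp_pos _).le h7.le 3
            _ ≤ 21 := by norm_num
  have h4 : (lam / (2 * j)) ^ j ≤ p * (21 : ℝ) ^ j :=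
    h1.trans (h.trans (mul_le_mul_of_nonneg_left h2 hp))
  calc lam ^ j = (lam / (2 * j)) ^ j * (2 * j) ^ j := by
        rw [← mul_pow]
        congr 1
        field_simp
    _ ≤ p * (21 : ℝ) ^ j * (2 * j) ^ j := mul_le_mul_of_nonneg_right h4 (by positivity)
    _ = p * (42 * j) ^ j := by
        rw [mul_assoc, ← mul_pow]
        congr 2
        ring
    _ ≤ p * (64 * j) ^ j := by
        apply mul_le_mul_of_nonneg_left _ hp
        apply pow_le_pow_left₀ (by positivity)
        nlinarith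

/-- One stage: the members of the family are projected to `j` classes. -/
theorem stage_core {a T j : ℕ} (ha : 2 ≤ a) (hn : Fintype.card V ≤ a ^ T) (hj : 1 ≤ j)
    (hT : 1 ≤ T) (hTj : T * j ≤ Fintype.card ι) (lam : ℝ) (hlam : 1 ≤ lam)
    (hk : (Fintype.card ι : ℝ) * Fintype.card ι ≤ j * lam) (F : Finset (ι → V))
    (hinj : ∀ f ∈ F, Function.Injective f)
    (hcard : ((a : ℝ) * lam) ^ (Fintype.card ι) ≤ F.card) :
    ∃ (nl : V → ι) (e : Fin j → ι) (P : Finset (Fin j → V)), Function.Injective e ∧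
      (∀ φ ∈ P, ∃ f ∈ F, (∀ l, nl (f l) = l) ∧ φ = fun i => f (e i)) ∧
      lam ^ j ≤ P.card * (64 * (j : ℝ)) ^ j := by
  have hl0 : 0 < lam := by linarith
  have hjk : j ≤ Fintype.card ι := le_trans (Nat.le_mul_of_pos_left j hT) hTj
  obtain ⟨J, g, hne, hkT, hspread⟩ := exists_spread ha hn lam hlam F hcard
  have hJc : j ≤ (Jᶜ : Finset ι).card := by
    rw [card_compl]
    exact Nat.le_of_mul_le_mul_left (hTj.trans hkT) (by omega)
  obtain ⟨B, hBJ, hBj⟩ := exists_subset_card_eq hJc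
  obtain ⟨e, heB, heinj, hesurj⟩ : ∃ e : Fin j → ι, (∀ i, e i ∈ B) ∧ Function.Injective e ∧
      ∀ l ∈ B, ∃ i, e i = l := by
    refine ⟨fun i => ((B.equivFinOfCardEq hBj).symm i).1, fun i => ((B.equivFinOfCardEq hBj).symm i).2,
      fun i i' h => (B.equivFinOfCardEq hBj).symm.injective (Subtype.ext h), fun l hl => ?_⟩
    refine ⟨B.equivFinOfCardEq hBj ⟨l, hl⟩, ?_⟩
    simp
  obtain ⟨s, hs⟩ : ∃ s, s = Fintype.card ι / j + 1 := ⟨_, rfl⟩
  have hs1 : Fintype.card ι ≤ j * s := by
    have h1 := Nat.div_add_mod (Fintype.card ι) j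
    have h2 := Nat.mod_lt (Fintype.card ι) (show 0 < j by omega)
    rw [hs, mul_add, mul_one]
    omega
  have hs2 : j * s ≤ 2 * Fintype.card ι := by
    have h1 := Nat.div_add_mod (Fintype.card ι) j
    rw [hs, mul_add, mul_one]
    omega
  obtain ⟨cl, hcl⟩ : ∃ cl : ι ⊕ (Fin j × Fin s) → ι, cl = Sum.elim id fun x => e x.1 := ⟨_, rfl⟩
  have hne' : Nonempty (ι ⊕ (Fin j × Fin s)) := ⟨Sum.inl (e ⟨0, hj⟩)⟩
  obtain ⟨c, hc⟩ := Pool.Agent.T9h34.N.second_moment cl (agr F J g)
    (fun f hf => hinj f (mem_agr.1 hf).1) hne Jᶜ B hBJ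
    (fun l _ => ⟨Sum.inl l, by rw [hcl]; rfl⟩) _ (fun _ => rfl) lam hl0 hspread
  obtain ⟨𝓖c, h𝓖c⟩ : ∃ 𝓖c, 𝓖c = (agr F J g).filter fun f => ∀ l ∈ Jᶜ, cl (c (f l)) = l :=
    ⟨_, rfl⟩
  rw [← h𝓖c] at hc
  have hGc : ∀ f ∈ 𝓖c, f ∈ F ∧ (∀ l ∈ J, f l = g l) ∧ ∀ l ∈ Jᶜ, cl (c (f l)) = l := by
    intro f hf
    rw [h𝓖c, mem_filter, mem_agr] at hf
    exact ⟨hf.1.1, hf.1.2, hf.2⟩
  -- the classes
  obtain ⟨nl, hnl⟩ : ∃ nl : V → ι, nl = fun x =>
      if h : ∃ l, l ∈ J ∧ g l = x then h.choose else cl (c x) := ⟨_, rfl⟩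
  have hnlf : ∀ f ∈ 𝓖c, ∀ l, nl (f l) = l := by
    intro f hf l
    obtain ⟨h1, h2, h3⟩ := hGc f hf
    rw [hnl]
    simp only
    by_cases h : ∃ l', l' ∈ J ∧ g l' = f l
    · rw [dif_pos h]
      apply hinj f h1
      rw [h2 _ h.choose_spec.1]
      exact h.choose_spec.2
    · rw [dif_neg h]
      apply h3
      rw [mem_compl]
      intro hl
      exact h ⟨l, hl, (h2 l hl).symm⟩
  refine ⟨nl, e, 𝓖c.image fun f => fun i => f (e i), heinj, ?_, ?_⟩
  · intro φ hφ
    rw [mem_image] at hφ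
    obtain ⟨f, hf, rfl⟩ := hφ
    exact ⟨f, (hGc f hf).1, hnlf f hf, rfl⟩
  · have hcards : Fintype.card (ι ⊕ (Fin j × Fin s)) = Fintype.card ι + j * s := by
      simp
    refine numbers (ι := ι) (s := s) hj hjk hs1 hs2 lam hl0 hk Jᶜ B hBj
      (card_le_univ _) (fun l => ((univ.filter fun γ => cl γ = l).card : ℝ) /
        Fintype.card (ι ⊕ (Fin j × Fin s))) ?_ ?_ _ (Nat.cast_nonneg _) ?_
    · intro l
      rw [hcards]
      push_cast
      refine div_le_div_of_nonneg_right ?_ (by positivity)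
      have h1 : 0 < (univ.filter fun γ => cl γ = l).card := by
        rw [card_pos]
        exact ⟨Sum.inl l, by rw [mem_filter, hcl]; exact ⟨mem_univ _, rfl⟩⟩
      exact_mod_cast h1
    · intro l hl
      rw [hcards]
      push_cast
      refine div_le_div_of_nonneg_right ?_ (by positivity)
      obtain ⟨i, rfl⟩ := hesurj l hl
      have h1 : s ≤ (univ.filter fun γ => cl γ = e i).card := by
        calc s = (univ : Finset (Fin s)).card := by rw [card_univ, Fintype.card_fin]
          _ ≤ _ := by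
              refine card_le_card_of_injOn (fun x => Sum.inr (i, x)) ?_ ?_
              · intro x _
                rw [mem_coe, mem_filter, hcl]
                exact ⟨mem_univ _, rfl⟩
              · intro x _ y _ hxy
                simpa using hxy
      exact_mod_cast h1
    · refine hc.trans (mul_le_mul_of_nonneg_right ?_ (prod_nonneg fun l _ => by positivity))
      have h4 : (𝓖c.image fun f => fun l : B => f l) ⊆
          (𝓖c.image fun f => fun i => f (e i)).image
            fun φ => fun l : B => φ (hesurj l.1 l.2).choose := by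
        intro ψ hψ
        rw [mem_image] at hψ
        obtain ⟨f, hf, rfl⟩ := hψ
        rw [mem_image]
        refine ⟨fun i => f (e i), mem_image.2 ⟨f, hf, rfl⟩, ?_⟩
        funext l
        show f (e (hesurj l.1 l.2).choose) = f l
        rw [(hesurj l.1 l.2).choose_spec]
      have h5 := (card_le_card h4).trans card_image_le
      exact_mod_cast h5

end Pool.Agent.T9h36.WN2
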