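import Pool.Agent.T9h36.WN2.Iter
import Pool.Agent.T9h36.WN.Final

set_option autoImplicit false

/-!
# The parameters for large `k`
-/

namespace Pool.Agent.T9h36.WN2

open Finset Pool.Agent.T9h34 Pool.Agent.T9h16 Pool.Agent.T9h35.Sharp Pool.Agent.T9h35.NearBF
open Pool.Agent.T9h36.WN
open scoped Classical

theorem rounds_bound {m N n : ℕ} (hn : 1 ≤ n) (hN : 1 ≤ N) (h : 2 * N * n ^ 2 ≤ 2 ^ (m + 1)) :
    m ^ m * ((3 * N + 1) * ((m + 1) * n + 1) ^ m) < 2 ^ (8 * (m + 1) ^ 2) := by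
  obtain ⟨κ, hκ⟩ : ∃ κ, κ = m + 1 := ⟨_, rfl⟩
  rw [← hκ] at h ⊢
  have hκ1 : 1 ≤ κ := by omega
  have hκ2 : κ ≤ 2 ^ κ := Nat.lt_two_pow_self.le
  have hn2 : n ≤ 2 ^ κ := by
    refine le_trans ?_ h
    calc n = 1 * 1 * n ^ 1 := by ring
      _ ≤ 2 * N * n ^ 2 := by
          apply Nat.mul_le_mul (Nat.mul_le_mul (by omega) hN)
          exact Nat.pow_le_pow_right hn (by omega)
  have hN2 : N ≤ 2 ^ κ := by
    refine le_trans ?_ h
    calc N = 1 * N * 1 := by ring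
      _ ≤ 2 * N * n ^ 2 := by
          apply Nat.mul_le_mul (Nat.mul_le_mul (by omega) le_rfl)
          exact Nat.one_le_pow _ _ hn
  have hone : 1 ≤ 2 ^ κ := Nat.one_le_two_pow
  have h1 : m ^ m ≤ 2 ^ (κ * κ) := by
    calc m ^ m ≤ (2 ^ κ) ^ m := Nat.pow_le_pow_left (by omega) _
      _ ≤ (2 ^ κ) ^ κ := Nat.pow_le_pow_right hone (by omega)
      _ = 2 ^ (κ * κ) := by rw [← pow_mul]
  have h2 : 3 * N + 1 ≤ 2 ^ (κ + 2) := by
    calc 3 * N + 1 ≤ 4 * 2 ^ κ := by omega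
      _ = 2 ^ (κ + 2) := by rw [pow_add]; ring
  have h3 : (κ * n + 1) ^ m ≤ 2 ^ ((2 * κ + 1) * κ) := by
    have h4 : κ * n + 1 ≤ 2 ^ (2 * κ + 1) := by
      calc κ * n + 1 ≤ 2 ^ κ * 2 ^ κ + 2 ^ κ * 2 ^ κ := by
            apply Nat.add_le_add (Nat.mul_le_mul hκ2 hn2)
            exact Nat.mul_le_mul hone hone
        _ = 2 ^ (2 * κ + 1) := by rw [pow_add, two_mul κ, pow_add]; ring
    calc (κ * n + 1) ^ m ≤ (2 ^ (2 * κ + 1)) ^ m := Nat.pow_le_pow_left h4 _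
      _ ≤ (2 ^ (2 * κ + 1)) ^ κ := Nat.pow_le_pow_right Nat.one_le_two_pow (by omega)
      _ = 2 ^ ((2 * κ + 1) * κ) := by rw [← pow_mul]
  calc m ^ m * ((3 * N + 1) * (κ * n + 1) ^ m)
      ≤ 2 ^ (κ * κ) * (2 ^ (κ + 2) * 2 ^ ((2 * κ + 1) * κ)) :=
        Nat.mul_le_mul h1 (Nat.mul_le_mul h2 h3)
    _ = 2 ^ (κ * κ + (κ + 2 + (2 * κ + 1) * κ)) := by rw [← pow_add, ← pow_add]
    _ < 2 ^ (8 * κ ^ 2) := by
        apply Nat.pow_lt_pow_right (by omega)
        nlinarith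

/-- The bound for the number of transversals in terms of the number of groups. -/
theorem block_count {m N n p p' : ℕ} (h : 2 * N * n ^ 2 ≤ 2 ^ (m + 1)) (hp : p ≤ p')
    (hp' : 1 ≤ p') :
    (2 * N * n ^ 2 * ((4 * m ^ 2 * (8 * (m + 1) ^ 2)) ^ 2 * (2 * (m + 1) * p)) ^ (m + 1)) *
      (64 * (m + 1)) ^ (m + 1) < (2 ^ 19 * (m + 1) ^ 10 * p') ^ (m + 1) := by
  obtain ⟨κ, hκ⟩ : ∃ κ, κ = m + 1 := ⟨_, rfl⟩
  rw [← hκ] at h ⊢
  have hm : m ≤ κ := by omega
  have hκ0 : 0 < κ := by omega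
  calc (2 * N * n ^ 2 * ((4 * m ^ 2 * (8 * κ ^ 2)) ^ 2 * (2 * κ * p)) ^ κ) * (64 * κ) ^ κ
      ≤ (2 ^ κ * ((4 * κ ^ 2 * (8 * κ ^ 2)) ^ 2 * (2 * κ * p')) ^ κ) * (64 * κ) ^ κ := by
        gcongr
    _ = (2 ^ 18 * κ ^ 10 * p') ^ κ := by
        rw [← mul_pow, ← mul_pow]
        congr 1
        ring
    _ < (2 ^ 19 * κ ^ 10 * p') ^ κ := by
        apply Nat.pow_lt_pow_left _ (by omega)
        have h1 : 0 < κ ^ 10 * p' := Nat.mul_pos (Nat.pow_pos hκ0) hp'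
        have h2 : 2 ^ 18 * κ ^ 10 * p' = 2 ^ 18 * (κ ^ 10 * p') := by ring
        have h3 : 2 ^ 19 * κ ^ 10 * p' = 2 ^ 19 * (κ ^ 10 * p') := by ring
        rw [h2, h3]
        omega

/-- The final bound. -/
theorem final_numbers {s a k R s' p' B lam : ℕ} (hs : 2 ≤ s) (hB : B ≤ a)
    (ha : 256 ≤ a) (hs' : s' ^ 2 ≤ a * R) (hp' : p' = B * s' * a)
    (hlam : lam = (a ^ s) ^ 2 * k + p') :
    lam ^ 2 ≤ a ^ (4 * s + 1) * max (k ^ 2) R := by
  obtain ⟨M, hM⟩ : ∃ M, M = max (k ^ 2) R := ⟨_, rfl⟩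
  have h1 : k ^ 2 ≤ M := hM ▸ le_max_left _ _
  have h2 : R ≤ M := hM ▸ le_max_right _ _
  rw [← hM]
  have h3 : p' ≤ a ^ 2 * s' := by
    rw [hp']
    calc B * s' * a ≤ a * s' * a := by gcongr
      _ = a ^ 2 * s' := by ring
  have h4 : lam ^ 2 ≤ 2 * ((a ^ s) ^ 2 * k) ^ 2 + 2 * p' ^ 2 := by
    have h5 : ∀ x y : ℕ, (x + y) ^ 2 ≤ 2 * x ^ 2 + 2 * y ^ 2 := by
      intro x y
      zify
      nlinarith [sq_nonneg ((x : ℤ) - y)]
    rw [hlam]
    exact h5 _ _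
  have h5 : ((a ^ s) ^ 2 * k) ^ 2 ≤ a ^ (4 * s) * M := by
    calc ((a ^ s) ^ 2 * k) ^ 2 = a ^ (4 * s) * k ^ 2 := by
          rw [mul_pow, ← pow_mul, ← pow_mul]
          congr 2
          ring
      _ ≤ _ := Nat.mul_le_mul_left _ h1
  have h6 : p' ^ 2 ≤ a ^ (4 * s) * M := by
    calc p' ^ 2 ≤ (a ^ 2 * s') ^ 2 := Nat.pow_le_pow_left h3 _
      _ = a ^ 4 * s' ^ 2 := by ring
      _ ≤ a ^ 4 * (a * R) := Nat.mul_le_mul_left _ hs'
      _ = a ^ 5 * R := by ring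
      _ ≤ a ^ (4 * s) * M := by
          apply Nat.mul_le_mul _ h2
          exact Nat.pow_le_pow_right (by omega) (by omega)
  calc lam ^ 2 ≤ 2 * ((a ^ s) ^ 2 * k) ^ 2 + 2 * p' ^ 2 := h4
    _ ≤ 2 * (a ^ (4 * s) * M) + 2 * (a ^ (4 * s) * M) := by omega
    _ = 4 * (a ^ (4 * s) * M) := by ring
    _ ≤ a * (a ^ (4 * s) * M) := Nat.mul_le_mul_right _ (by omega)
    _ = a ^ (4 * s + 1) * M := by ring

/-- One circuit, large `k`. -/
theorem one_circuit {n k m N R s a : ℕ} (C : Circuit (Pair n))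
    (hs : ∀ G : SimpleGraph (Fin n), C.eval (edgeValues G) = true → HasClique k G)
    (hN : C.size + C.numReads + 1 ≤ N) (hR : 1 ≤ R) (hno : ¬ HasChain C k R)
    (hm : 2 ≤ m) (hn1 : 1 ≤ n) (hs2 : 2 ≤ s) (h2N : 2 * N * n ^ 2 ≤ 2 ^ (m + 1))
    (ha : 2 ^ 19 * (m + 1) ^ 10 * (2 * (m + 1)) ^ (s ^ 2 + 3) ≤ a) (ha' : 32 * (s ^ 2 + 2) ≤ a)
    (ha2 : 256 ≤ a) (hn : n ≤ a ^ s ^ 2) (hTk : (m + 1) * s ^ 2 ≤ k) (hkn : k ≤ n) :
    ((univ.filter fun S : Finset (Fin n) => S.card = k ∧ Finds C S).card * k ^ k) ^ 2 ≤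
      (a ^ (8 * s) * max (k ^ 2) R) ^ k := by
  obtain ⟨F, hF⟩ : ∃ F, F = (univ.filter fun S : Finset (Fin n) => S.card = k ∧
      Finds C S).card := ⟨_, rfl⟩
  rw [← hF]
  have hs0 : 1 ≤ s ^ 2 := Nat.one_le_pow _ _ (by omega)
  have hk1 : 1 ≤ k := le_trans (Nat.mul_pos (Nat.succ_pos m) hs0) hTk
  by_cases hRn : R ≤ n ^ 2
  · obtain ⟨T, hT⟩ : ∃ T, T = s ^ 2 := ⟨_, rfl⟩
    rw [← hT] at ha ha' hn hTk hs0
    obtain ⟨q, hq⟩ : ∃ q, q = T + 1 := ⟨_, rfl⟩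
    obtain ⟨d, s', hd1, hd2, hd3, hd4, hd5, hd6⟩ := sys_digit q R (by omega) hR
    obtain ⟨I, _, ⟨σ⟩, hI⟩ := exists_sys (q + 1) d (m + 1) (by omega) hd1 (by omega)
    have hI8 : 8 * R ≤ Fintype.card I := by
      have h1 : 8 * R * ((q + 1) * d ^ 2) ≤ Fintype.card I * ((q + 1) * d ^ 2) :=
        (blocks_bound (Nat.succ_pos m) hd2 hd4).trans hI
      exact Nat.le_of_mul_le_mul_right h1 (Nat.mul_pos (by omega) (Nat.pow_pos (by omega)))
    have hN1 : 1 ≤ N := by omega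
    have hS := singleBlock I (Pair n) m n _ R N (8 * (m + 1) ^ 2) σ C hI8 hm
      (Nat.succ_le_of_lt (by positivity)) hR hn1 hN (rounds_bound hn1 hN1 h2N)
    have hgr := groups_bound (κ := m + 1) hd5
    obtain ⟨p, hp⟩ : ∃ p, p = 2 * ((m + 1) * ((m + 1) * d) ^ (q + 1)) := ⟨_, rfl⟩
    rw [← hp] at hS hgr
    obtain ⟨B, hB⟩ : ∃ B, B = (2 * (m + 1)) ^ (q + 2) := ⟨_, rfl⟩
    rw [← hB] at hgr
    have hs'R : s' ^ 2 ≤ a * R := by
      calc s' ^ 2 ≤ 32 * R * (q + 1) := hd3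
        _ = (32 * (T + 2)) * R := by rw [hq]; ring
        _ ≤ a * R := Nat.mul_le_mul_right _ ha'
    have hs'a : s' ≤ a ^ q := by
      have h1 : s' ^ 2 ≤ (a ^ q) ^ 2 := by
        calc s' ^ 2 ≤ a * R := hs'R
          _ ≤ a * (a ^ T) ^ 2 := Nat.mul_le_mul_left _ (hRn.trans (Nat.pow_le_pow_left hn 2))
          _ ≤ a ^ 2 * (a ^ T) ^ 2 :=
              Nat.mul_le_mul_right _ (Nat.le_self_pow (by omega) a)
          _ = (a ^ q) ^ 2 := by
              rw [hq]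
              ring
      exact (Nat.pow_le_pow_iff_left (by omega)).1 h1
    have hpp : p ≤ B * s' * a := by
      have h1 : p ^ q ≤ (B * s' * a) ^ q := by
        calc p ^ q ≤ (B * s') ^ q * s' := hgr
          _ ≤ (B * s') ^ q * a ^ q := Nat.mul_le_mul_left _ hs'a
          _ = (B * s' * a) ^ q := by rw [← mul_pow]
      exact (Nat.pow_le_pow_iff_left (by omega)).1 h1
    have hp1 : 1 ≤ B * s' * a := by
      have : 0 < B := by
        rw [hB]
        positivity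
      exact Nat.mul_pos (Nat.mul_pos this hd6) (by omega)
    have hcount := block_count h2N hpp hp1
    obtain ⟨lam, hlam⟩ : ∃ lam, lam = (a ^ s) ^ 2 * k +
        (2 ^ 19 * (m + 1) ^ 10 * B) * s' * a := ⟨_, rfl⟩
    have hlam2 := final_numbers (B := 2 ^ 19 * (m + 1) ^ 10 * B) hs2 (by
      rw [hB, hq]
      exact ha) ha2 hs'R rfl hlam
    obtain ⟨i, hi⟩ : ∃ i, s = i + 2 := ⟨s - 2, by omega⟩
    have hmain := few_found_large C hs hS hno (a := a) (T := T) (D := a ^ s) (i := i)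
      (by omega) hn hs0 (by
        calc 2 * T ≤ a := by omega
          _ = a ^ 1 := (pow_one a).symm
          _ ≤ a ^ s := Nat.pow_le_pow_right (by omega) (by omega)) hTk (by
        calc k ≤ a ^ T := hkn.trans hn
          _ = (a ^ s) ^ (i + 2) := by rw [← hi, ← pow_mul, hT, sq]
          _ ≤ (m + 1) * (a ^ s) ^ (i + 2) := Nat.le_mul_of_pos_left _ (Nat.succ_pos m))
      (lam : ℝ) (by
        have : 1 ≤ lam := by
          rw [hlam]
          have : 0 < (a ^ s) ^ 2 * k := Nat.mul_pos (Nat.pow_pos (Nat.pow_pos (by omega))) hk1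
          omega
        exact_mod_cast this) (by
        have : (a ^ s) ^ 2 * k ≤ lam := by
          rw [hlam]
          omega
        exact_mod_cast this) (by
        have h1 : (2 * N * n ^ 2 * ((4 * m ^ 2 * (8 * (m + 1) ^ 2)) ^ 2 *
            (2 * (m + 1) * p)) ^ (m + 1)) * (64 * (m + 1)) ^ (m + 1) < lam ^ (m + 1) := by
          refine lt_of_lt_of_le hcount (Nat.pow_le_pow_left ?_ _)
          rw [hlam]
          have h2 : 2 ^ 19 * (m + 1) ^ 10 * (B * s' * a) =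
            (2 ^ 19 * (m + 1) ^ 10 * B) * s' * a := by ring
          rw [h2]
          omega
        exact_mod_cast h1)
    rw [← hF] at hmain
    have hmain' : k.factorial * F ≤ (a * (256 * a) ^ i * lam) ^ k := by
      have h1 : ((k.factorial * F : ℕ) : ℝ) < (((a * (256 * a) ^ i * lam) ^ k : ℕ) : ℝ) := by
        push_cast at hmain ⊢
        exact hmain
      exact (Nat.cast_lt.1 h1).le
    have hkk : k ^ k ≤ 4 ^ k * k.factorial := by exact_mod_cast pow_self_le k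
    obtain ⟨M, hM⟩ : ∃ M, M = max (k ^ 2) R := ⟨_, rfl⟩
    rw [← hM] at hlam2 ⊢
    calc (F * k ^ k) ^ 2 ≤ (F * (4 ^ k * k.factorial)) ^ 2 := by gcongr
      _ = (4 ^ k * (k.factorial * F)) ^ 2 := by ring
      _ ≤ (4 ^ k * (a * (256 * a) ^ i * lam) ^ k) ^ 2 := by gcongr
      _ = ((4 * (a * (256 * a) ^ i)) ^ 2 * lam ^ 2) ^ k := by
          rw [← mul_pow, ← pow_mul, mul_comm k 2, pow_mul]
          congr 1
          ring
      _ ≤ (a ^ (4 * i + 4) * (a ^ (4 * s + 1) * M)) ^ k := by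
          apply Nat.pow_le_pow_left
          apply Nat.mul_le_mul _ hlam2
          calc (4 * (a * (256 * a) ^ i)) ^ 2 ≤ (a * (a * (a * a) ^ i)) ^ 2 := by
                gcongr
                omega
            _ = a ^ (4 * i + 4) := by
                rw [← sq a, ← pow_mul]
                ring
      _ ≤ (a ^ (8 * s) * M) ^ k := by
          apply Nat.pow_le_pow_left
          rw [← mul_assoc, ← pow_add]
          apply Nat.mul_le_mul_right
          apply Nat.pow_le_pow_right (by omega)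
          omega
  · rw [not_le] at hRn
    have hFN : F ≤ n.choose k := by
      rw [hF]
      calc (univ.filter fun S : Finset (Fin n) => S.card = k ∧ Finds C S).card
          ≤ (powersetCard k (univ : Finset (Fin n))).card := by
            apply card_le_card
            intro S hS
            rw [mem_powersetCard]
            exact ⟨subset_univ _, (mem_filter.1 hS).2.1⟩
        _ = n.choose k := by rw [card_powersetCard, card_univ, Fintype.card_fin]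
    have hkk : k ^ k ≤ 4 ^ k * k.factorial := by exact_mod_cast pow_self_le k
    have h1 : F * k ^ k ≤ (4 * n) ^ k := by
      calc F * k ^ k ≤ n.choose k * (4 ^ k * k.factorial) := Nat.mul_le_mul hFN hkk
        _ = 4 ^ k * (k.factorial * n.choose k) := by ring
        _ = 4 ^ k * n.descFactorial k := by rw [Nat.descFactorial_eq_factorial_mul_choose]
        _ ≤ 4 ^ k * n ^ k := Nat.mul_le_mul_left _ (Nat.descFactorial_le_pow n k)
        _ = (4 * n) ^ k := by rw [mul_pow]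
    calc (F * k ^ k) ^ 2 ≤ ((4 * n) ^ k) ^ 2 := Nat.pow_le_pow_left h1 2
      _ = (16 * n ^ 2) ^ k := by rw [← pow_mul, mul_comm k 2, pow_mul]; ring
      _ ≤ (a ^ (8 * s) * max (k ^ 2) R) ^ k := by
          apply Nat.pow_le_pow_left
          apply Nat.mul_le_mul _ (hRn.le.trans (le_max_right _ _))
          calc 16 ≤ a := by omega
            _ = a ^ 1 := (pow_one a).symm
            _ ≤ a ^ (8 * s) := Nat.pow_le_pow_right (by omega) (by omega)

end Pool.Agent.T9h36.WN2
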