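import Pool.Agent.T9h36.WN2.Ctx
import Pool.Agent.T9h36.WN2.Moment

set_option autoImplicit false

/-!
# One stage: from `k` to `j` vertices
-/

namespace Pool.Agent.T9h36.WN2

open Finset Pool.Agent.T9h34 Pool.Agent.T9h16 Pool.Agent.T9h35.Sharp Pool.Agent.T9h35.NearBF
open Pool.Agent.T9h36.WN
open scoped Classical

variable {n : ℕ}

/-- The properties of the members of a family. -/
def Good (C : Circuit (Pair n)) {Λ : Type} (lab : Fin n → Option Λ) {k : ℕ} (f : Fin k → Fin n) :
    Prop :=
  Function.Injective f ∧ (∀ l, lab (f l) = none) ∧ FoundIn C lab f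

/-- The new labels. -/
theorem exists_labels {Λ : Type} [Fintype Λ] (C : Circuit (Pair n)) (lab : Fin n → Option Λ)
    {k j : ℕ} (hj : 1 ≤ j) (hjk : j ≤ k) (nl : Fin n → Fin k) (e : Fin j → Fin k)
    (heinj : Function.Injective e) :
    ∃ (Λ' : Type) (_ : Fintype Λ') (lab' : Fin n → Option Λ') (cc : Fin n → Fin j),
      Fintype.card Λ' + j = Fintype.card Λ + k ∧
      ∀ f : Fin k → Fin n, Good C lab f → (∀ l, nl (f l) = l) →
        Good C lab' (fun i => f (e i)) ∧ ∀ i, cc (f (e i)) = i := by
  obtain ⟨lab', hlab'⟩ : ∃ lab' : Fin n → Option (Λ ⊕ {l : Fin k // ¬ ∃ i, e i = l}),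
    lab' = fun x =>
      match lab x with
      | some b => some (Sum.inl b)
      | none => if h : ∃ i, e i = nl x then none else some (Sum.inr ⟨nl x, h⟩) := ⟨_, rfl⟩
  have hlabsome : ∀ x b, lab x = some b → lab' x = some (Sum.inl b) := by
    intro x b h
    rw [hlab']
    simp only [h]
  have hlabin : ∀ x, lab x = none → (∃ i, e i = nl x) → lab' x = none := by
    intro x h h'
    rw [hlab']
    simp only [h, dif_pos h']
  have hlabout : ∀ x, lab x = none → ∀ h' : ¬ ∃ i, e i = nl x,
      lab' x = some (Sum.inr ⟨nl x, h'⟩) := by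
    intro x h h'
    rw [hlab']
    simp only [h, dif_neg h']
  have href : Refines lab lab' := by
    constructor
    · intro x y hxy
      rcases hx : lab x with _ | b
      · rcases hy : lab y with _ | b'
        · exact absurd (hx.trans hy.symm) hxy
        · rw [hlabsome y b' hy]
          by_cases h : ∃ i, e i = nl x
          · rw [hlabin x hx h]
            exact (Option.some_ne_none _).symm
          · rw [hlabout x hx h]
            intro h1
            simp at h1
      · rw [hlabsome x b hx]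
        rcases hy : lab y with _ | b'
        · by_cases h : ∃ i, e i = nl y
          · rw [hlabin y hy h]
            exact Option.some_ne_none _
          · rw [hlabout y hy h]
            intro h1
            simp at h1
        · rw [hlabsome y b' hy]
          intro h1
          rw [hx, hy] at hxy
          apply hxy
          simpa using h1
    · intro x y hxy hne'
      obtain ⟨b, hb⟩ := Option.ne_none_iff_exists'.1 hne'
      rw [hlabsome x b hb, hlabsome y b (hxy ▸ hb)]
      exact ⟨rfl, Option.some_ne_none _⟩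
  obtain ⟨cc, hcc⟩ : ∃ cc : Fin n → Fin j, cc = fun x =>
      if h : ∃ i, e i = nl x then h.choose else ⟨0, hj⟩ := ⟨_, rfl⟩
  refine ⟨Λ ⊕ {l : Fin k // ¬ ∃ i, e i = l}, inferInstance, lab', cc, ?_, ?_⟩
  · rw [Fintype.card_sum, Fintype.card_subtype_compl]
    have h1 : Fintype.card {l : Fin k // ∃ i, e i = l} = j := by
      have h3 : Fintype.card (Set.range e) = Fintype.card (Fin j) :=
        Set.card_range_of_injective heinj
      rw [Fintype.card_fin] at h3
      refine Eq.trans ?_ h3
      apply Fintype.card_congr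
      exact Equiv.refl _
    rw [h1, Fintype.card_fin]
    omega
  · intro f hf hnlf
    obtain ⟨h4, h5, h6⟩ := hf
    have h7 : ∀ i, lab' (f (e i)) = none := by
      intro i
      apply hlabin _ (h5 _)
      rw [hnlf]
      exact ⟨i, rfl⟩
    refine ⟨⟨fun i i' h => heinj (h4 h), h7, ?_⟩, ?_⟩
    · refine found_step C href f h6 e h7 ?_
      intro l l' hll hl
      have h8 : ¬ ∃ i, e i = nl (f l) := by
        rw [hnlf]
        exact hl
      rw [hlabout _ (h5 l) h8]
      by_cases h9 : ∃ i, e i = nl (f l')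
      · rw [hlabin _ (h5 l') h9]
        exact Option.some_ne_none _
      · rw [hlabout _ (h5 l') h9]
        intro h10
        simp only [Option.some.injEq, Sum.inr.injEq, Subtype.mk.injEq] at h10
        rw [hnlf, hnlf] at h10
        exact hll h10
    · intro i
      rw [hcc]
      simp only
      have h : ∃ i', e i' = nl (f (e i)) := ⟨i, (hnlf (e i)).symm⟩
      rw [dif_pos h]
      apply heinj
      rw [h.choose_spec, hnlf]

/-- One stage: the members of the family are projected to `j` classes. -/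
theorem stage {Λ : Type} [Fintype Λ] (C : Circuit (Pair n)) (lab : Fin n → Option Λ)
    {k j a T : ℕ} (ha : 2 ≤ a) (hn : n ≤ a ^ T) (hj : 1 ≤ j) (hT : 1 ≤ T) (hTj : T * j ≤ k)
    (lam : ℝ) (hlam : 1 ≤ lam) (hk : (k : ℝ) * k ≤ j * lam) (F : Finset (Fin k → Fin n))
    (hF : ∀ f ∈ F, Good C lab f) (hcard : ((a : ℝ) * lam) ^ k ≤ F.card) :
    ∃ (Λ' : Type) (_ : Fintype Λ') (lab' : Fin n → Option Λ') (cc : Fin n → Fin j)
      (P : Finset (Fin j → Fin n)), Fintype.card Λ' + j = Fintype.card Λ + k ∧
      (∀ φ ∈ P, Good C lab' φ ∧ ∀ i, cc (φ i) = i) ∧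
      lam ^ j ≤ P.card * (64 * (j : ℝ)) ^ j := by
  have hjk : j ≤ k := le_trans (Nat.le_mul_of_pos_left j hT) hTj
  obtain ⟨nl, e, P, heinj, hP, hcardP⟩ := stage_core (ι := Fin k) (V := Fin n) ha
    (by rw [Fintype.card_fin]; exact hn) hj hT (by rw [Fintype.card_fin]; exact hTj) lam hlam
    (by rw [Fintype.card_fin]; exact hk) F (fun f hf => (hF f hf).1)
    (by rw [Fintype.card_fin]; exact hcard)
  obtain ⟨Λ', inst, lab', cc, h1, h2⟩ := exists_labels C lab hj hjk nl e heinj
  refine ⟨Λ', inst, lab', cc, P, h1, ?_, hcardP⟩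
  intro φ hφ
  obtain ⟨f, hf, h3, rfl⟩ := hP φ hφ
  exact h2 f (hF f hf) h3

/-- All orders of the classes. -/
theorem symm_family {Λ : Type} (C : Circuit (Pair n)) (lab : Fin n → Option Λ) {j : ℕ}
    (cc : Fin n → Fin j) (P : Finset (Fin j → Fin n))
    (hP : ∀ φ ∈ P, Good C lab φ ∧ ∀ i, cc (φ i) = i) :
    ∃ F : Finset (Fin j → Fin n), (∀ f ∈ F, Good C lab f) ∧ F.card = j.factorial * P.card := by
  refine ⟨((univ : Finset (Equiv.Perm (Fin j))) ×ˢ P).image fun x => fun i => x.2 (x.1 i), ?_, ?_⟩
  · intro f hf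
    rw [mem_image] at hf
    obtain ⟨⟨σ, φ⟩, hx, rfl⟩ := hf
    rw [mem_product] at hx
    obtain ⟨⟨h1, h2, h3⟩, -⟩ := hP φ hx.2
    refine ⟨fun i i' h => σ.injective (h1 h), fun l => h2 _, ?_⟩
    intro H hH
    apply h3 H
    intro a b hab
    have h4 := hH (σ.symm a) (σ.symm b) (fun h => hab (σ.symm.injective h))
    simpa using h4
  · rw [card_image_of_injOn, card_product, card_univ, Fintype.card_perm, Fintype.card_fin]
    rintro ⟨σ, φ⟩ hx ⟨σ', φ'⟩ hx' h
    rw [mem_coe, mem_product] at hx hx'
    have h1 := (hP φ hx.2).2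
    have h2 := (hP φ' hx'.2).2
    have h3 : ∀ i, φ (σ i) = φ' (σ' i) := fun i => congrFun h i
    have h4 : σ = σ' := by
      ext i
      have h5 := congrArg cc (h3 i)
      rw [h1, h2] at h5
      exact congrArg Fin.val h5
    subst h4
    have h5 : φ = φ' := by
      funext i
      have h6 := h3 (σ.symm i)
      simpa using h6
    rw [h5]

end Pool.Agent.T9h36.WN2
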